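import Pool.Agent.V7H45.CY.Spec2

/-!
# Project CYC, part 2: all elliptic curves with a point of order four

`E : y² = x (x² + (T² - 2 S) x + S²)`, `T = g t`, `S = g e n`, `e = ± 1`. The curve is 2-isogenous to
`y² = x (x + T²) (x + 4 S)`. The forms: `t` (class 0), `s = e n` (class 1), `4 s - g t²` (class 2).
The point is `ω = (g, t, n)`.
-/

set_option autoImplicit false

namespace Pool.Agent.V7H45.CY

open Finset Pool.Agent.W262.RK Pool.Agent.W307.RT Pool.Agent.V7H45.G8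

/-- `M` for `Z/4` -/
def M3 (ω : ℕ × ℕ × ℕ) : ℤ := (ω.1 : ℤ) ^ 2 * (ω.2.1 : ℤ) ^ 2
/-- `N` for `Z/4` -/
def N3 (e : ℤ) (ω : ℕ × ℕ × ℕ) : ℤ := 4 * (ω.1 : ℤ) * (e * (ω.2.2 : ℤ))

/-- the forms of `Z/4` -/
def f3 (e : ℤ) (ω : ℕ × ℕ × ℕ) : Fin 3 → ℤ :=
  ![(ω.2.1 : ℤ), e * (ω.2.2 : ℤ), 4 * (e * (ω.2.2 : ℤ)) - (ω.1 : ℤ) * (ω.2.1 : ℤ) ^ 2]
/-- the classes -/
def c3 : Fin 3 → Fin 4 := ![0, 1, 2]
/-- the constants -/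
def κ3 : Fin 3 → ℤ := ![1, 1, -1]

/-- the good points -/
def Ok3 (e : ℤ) (ω : ℕ × ℕ × ℕ) : Prop :=
  1 ≤ ω.1 ∧ 1 ≤ ω.2.1 ∧ 1 ≤ ω.2.2 ∧ Squarefree ω.1 ∧ ω.2.1.Coprime ω.2.2 ∧
    ω.1.Coprime ω.2.2 ∧ 4 * (e * (ω.2.2 : ℤ)) - (ω.1 : ℤ) * (ω.2.1 : ℤ) ^ 2 ≠ 0

open Classical in
/-- the good points in the weighted box -/
noncomputable def W3 (e : ℤ) (X : ℕ) : Finset (ℕ × ℕ × ℕ) :=
  (Icc 1 (X ^ 2) ×ˢ Icc 1 (X ^ 2) ×ˢ Icc 1 (X ^ 4)).filter (fun ω =>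
    Ok3 e ω ∧ ω.1 * ω.2.1 ≤ X ^ 2 ∧ ω.1 * ω.2.2 ≤ X ^ 4)

/-- the split primes of the form `t` -/
noncomputable def spl (z y : ℕ) (e : ℤ) (ω : ℕ × ℕ × ℕ) : ℕ :=
  ∏ p ∈ (S1 z y (f3 e ω) 0).primeFactors.filter
    (fun p => ¬ p ∣ ω.1 ∧ Jr ((ω.1 : ℤ) * (e * (ω.2.2 : ℤ))) p = 1), p

/-- the tuple `(a, s 1, s 2)` -/
def up3 (a : ℕ) (s : Fin 3 → ℕ) : Fin 3 → ℕ := ![a, s 1, s 2]

/-- JOB Q4: parametrisation of the curves with a point of order four (`t_ISO2` of helper67 may be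
used). `(T, S)` are integers; the factor two is for `(T, S)` and `(3 T, 9 S)`. -/
def S_Q4 : Prop := ∃ (C : ℕ) (F : ℤ × ℤ → ℤ × (ℕ × ℕ × ℕ)), ∀ H : ℕ,
  (∀ x, ((CvC 4 H).filter (fun c => F c = x)).card ≤ 2) ∧
    ∀ c ∈ CvC 4 H, ((F c).1 = 1 ∨ (F c).1 = -1) ∧ Ok3 (F c).1 (F c).2 ∧
      ((F c).2.1 * (F c).2.2.1) ^ 12 ≤ C * H ∧ ((F c).2.1 * (F c).2.2.2) ^ 6 ≤ C * H ∧
      Module.finrank ℤ (Sh c.1 c.2).toAffine.Point ≤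
        Module.finrank ℤ (EAB (-(M3 (F c).2)) (-(N3 (F c).1 (F c).2))).toAffine.Point

/-- there are many curves in the family `Q` -/
def LOW3 (Q : ℕ → Finset (ℤ × ℤ)) : Prop :=
  ∃ (c : ℝ) (C T0 : ℕ), 0 < c ∧ ∀ T H : ℕ, T0 ≤ T → C * T ^ 12 ≤ H →
    c * T ^ 3 ≤ ((Q H).card : ℝ)

/-- JOB K4: there are many curves with a point of order four (compare `V7H63/CY/Cc.lean`) -/
def S_K4 : Prop := LOW3 (CvC 4)

open Classical in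
/-- the curves with a point of order four and no subgroup `Z/8`, `Z/12`, `Z/2 x Z/4` -/
noncomputable def Q4 (H : ℕ) : Finset (ℤ × ℤ) := (CvC 4 H).filter (fun c =>
  ¬ HasC 8 (Sh c.1 c.2) ∧ ¬ HasC 12 (Sh c.1 c.2) ∧ ¬ HasT 4 (Sh c.1 c.2))

/-- JOB E4 (from `S_P8`, `S_P12`, `PAR 4 12 M4 N4`: the others are at most `C T²`) -/
def S_E4 : Prop := LOW3 (CvC 4) → LOW3 Q4

/-- JOB R4: the rank bound (compare `V7H34/CY/Gen.lean`); the primes of `g` are free -/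
def S_R4 : Prop := ∃ (z0 E : ℕ), ∀ z y X k : ℕ, z0 ≤ z → ∀ (e : ℤ) (ω : ℕ × ℕ × ℕ),
  (e = 1 ∨ e = -1) → Ok3 e ω → (∀ j, (f3 e ω j).natAbs ≤ X ^ 7) → 1 ≤ y → X < (y + 1) ^ k →
    2 ^ Module.finrank ℤ (EAB (-(M3 ω)) (-(N3 e ω))).toAffine.Point ≤
      4 ^ (z + 2) * E ^ k * 4 ^ (∑ j, (S2 z y (f3 e ω) j).primeFactors.card) *
        4 ^ ω.1.primeFactors.card *
        NL (∏ j, up3 (spl z y e ω) (S1 z y (f3 e ω)) j)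
          (LLs c3 (fun j _ => κ3 j) (up3 (spl z y e ω) (S1 z y (f3 e ω))) ∅)

/-- JOB N4: the counting theorem. For fixed `g ≤ X` and `t`: linear sieve (`SVR2`, two forms `n` and
`4 e n - g t²`) in the residue classes with the given symbols; then linear sieve (one form) for
`t`; for `g > X` the trivial bound. -/
def S_N4 : Prop := ∀ e : ℤ, (e = 1 ∨ e = -1) → ∃ c z0 : ℕ, ∀ z, z0 ≤ z →
  ∃ (C : ℝ) (K y0 : ℕ), 0 ≤ C ∧ 1 ≤ K ∧ ∀ X y Y : ℕ, y0 ≤ y → z < y → y ^ K ≤ X →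
  ∀ s ∈ Tup (Fin 3) z y, ∀ v ∈ Tup (Fin 3) z y, ∀ u ∈ Tup (Fin 3) y Y,
    (∏ j, s j * v j * u j) ^ 8 ≤ X → ∀ a, a ∣ s 0 →
    ∑ ω ∈ (W3 e X).filter (fun ω => S1 z y (f3 e ω) = s ∧ S2 z y (f3 e ω) = v ∧
      (∀ j, (u j : ℤ) ∣ f3 e ω j) ∧ spl z y e ω = a), (16 : ℝ) ^ ω.1.primeFactors.card ≤
      C * X ^ 6 * (1 / 2) ^ (s 0).primeFactors.card * (∏ j, gw 1 c (s j)) *
        (∏ j, 4 ^ (v j).primeFactors.card * (gw 1 c (v j) / v j)) *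
        (∏ j, 2 ^ (u j).primeFactors.card * (1 / (u j : ℝ))) / (Real.log y) ^ 3

/-- the explicit part for the class `k` -/
noncomputable def TK {n : ℕ} (cls : Fin n → Fin 4) (κ : Fin n → ℤ) (k : Fin 4)
    (s : Fin n → ℕ) : ℝ :=
  ∏ j, ∏ p ∈ (s j).primeFactors, (if cls j = k then (3 + Jr (κ j) p) / 2 else 1 / 2)

/-- JOB G4: pigeonhole with the two directions `(d, 1)` and `(1, d)` (compare `V7H94/CY/G.lean`):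
each count is at least `max 1 TK`, they meet in `(1, 1)` -/
def S_G4 : Prop := ∀ (n : ℕ) (cls : Fin n → Fin 4) (κ : Fin n → ℤ) (z y : ℕ), 2 ≤ z →
  (∀ j, cls j ≠ 3) → (∀ j, κ j ≠ 0) → (∀ j, (κ j).natAbs ≤ z) → ∀ s ∈ Tup (Fin n) z y,
    TK cls κ 1 s + TK cls κ 2 s ≤ (NL (∏ j, s j) (LLs cls (fun j _ => κ j) s ∅) : ℝ) + 1

/-- JOB X4: the part of the local count beyond two explicit parts (compare `V7H88/CY/X.lean`) -/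
def S_X4 : Prop := ∀ (n : ℕ) (cls : Fin n → Fin 4) (κ : Fin n → ℤ) (g : Fin n → ℕ → ℝ) (z y : ℕ),
  (∀ j, cls j ≠ 3) → (∀ j, κ j ≠ 0) → (∀ j, (κ j).natAbs ≤ z) →
  ∑ s ∈ Tup (Fin n) z y, (NB cls (fun j _ => κ j) s - TK cls κ 1 s - TK cls κ 2 s +
      ∏ j, (1 / 2 : ℝ) ^ (s j).primeFactors.card) *
      ∏ j, ∏ p ∈ (s j).primeFactors, g j p =
    ∑ d ∈ (Tup (I4 cls) z y).filter (fun d =>
        (∃ i : I4 cls, ¬ (cls i.1.1 = 1 ∨ i.1.2 = ((false, false), (false, false))) ∧ d i ≠ 1) ∧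
        ∃ i : I4 cls, ¬ (cls i.1.1 = 2 ∨ i.1.2 = ((false, false), (false, false))) ∧ d i ≠ 1),
      (∏ i, ∏ p ∈ (d i).primeFactors, w4 cls i * g i.1.1 p) *
        Pool.Agent.W262.RK.Sym (L4 cls) (κ4 cls (fun j _ => κ j)) d

/-- the average over the weighted box -/
def AVG3 : Prop := ∀ e : ℤ, (e = 1 ∨ e = -1) → ∃ C : ℝ, ∀ X : ℕ, 1 ≤ X →
  ∑ ω ∈ W3 e X, R8 (M3 ω) (N3 e ω) ≤ C * (X : ℝ) ^ 6

/-- the local majorant -/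
noncomputable def G3 (s : Fin 3 → ℕ) : ℝ :=
  (1 / 2) ^ (s 0).primeFactors.card * ∑ a ∈ (s 0).divisors,
    (NB c3 (fun j _ => κ3 j) (up3 a s)) ^ (1 / 8 : ℝ)

/-- the sum of the local majorant -/
def SUM3 : Prop := ∀ c : ℕ, ∃ z0 : ℕ, ∀ z, z0 ≤ z → ∃ C : ℝ, ∀ y, z < y →
  ∑ s ∈ Tup (Fin 3) z y, G3 s * ∏ j, gw 1 c (s j) ≤ C * (Real.log y) ^ 3

/-- JOB A4: the average over the weighted box (adapt `avgC` of `V7H45/CY/Avg.lean`: `ant` with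
`T X = W3 e X`, `S X = X ^ 6`, `G = G3`, sum over the possible values `a` of `spl`) -/
def S_A4 : Prop := S_N4 → S_R4 → SUM3 → AVG3

/-- JOB Z4: from the weighted box to the curves (compare `final_Q` of `V7H45/CY/Fin.lean`) -/
def S_Z4 : Prop := S_Q4 → AVG3 → ∀ Q : ℕ → Finset (ℤ × ℤ), (∀ H, Q H ⊆ CvC 4 H) → LOW3 Q →
  ∃ C : ℝ, ∀ H : ℕ, ∑ c ∈ Q H,
    (2 : ℝ) ^ ((Module.finrank ℤ (Sh c.1 c.2).toAffine.Point : ℝ) / 8) ≤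
      C * ((Q H).card : ℝ)

end Pool.Agent.V7H45.CY
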