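import Pool.Agent.V7H45.CY.Spec2
import Pool.Agent.W307.RT.Box

/-! From the box to the curves. -/

set_option autoImplicit false

namespace Pool.Agent.V7H45.CY

open Finset Filter Pool.Agent.W262.RK Pool.Agent.W307.RT

/-- there are many curves in the family `Q` -/
def LOWQ (k : ℕ) (Q : ℕ → Finset (ℤ × ℤ)) : Prop :=
  ∃ (c : ℝ) (C T0 : ℕ), 0 < c ∧ ∀ T H : ℕ, T0 ≤ T → C * T ^ k ≤ H →
    c * T ^ 2 ≤ ((Q H).card : ℝ)

/-- `2 ^ (rank / 8)` of `y² = x³ + A x + B` -/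
noncomputable def RS (c : ℤ × ℤ) : ℝ :=
  (2 : ℝ) ^ ((Module.finrank ℤ (Sh c.1 c.2).toAffine.Point : ℝ) / 8)

/-- from the box to the curves -/
theorem final_Q {m k : ℕ} {M N : ℤ → ℤ → ℤ} (hk : 1 ≤ k) (hP : PARC m k M N)
    (Q : ℕ → Finset (ℤ × ℤ)) (hQ : ∀ H, Q H ⊆ CvC m H) (hL : LOWQ k Q) (hbox : BOXC M N) :
    ∃ C : ℝ, ∀ H : ℕ, ∑ c ∈ Q H, RS c ≤ C * ((Q H).card : ℝ) := by
  classical
  obtain ⟨C0', F, hF⟩ := hP
  obtain ⟨c, C1, T0, hc, hlow⟩ := hL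
  obtain ⟨C, hC, hb⟩ := hbox
  set C0 := C0' + 1 with hC0
  have hF' : ∀ H : ℕ, ∀ x ∈ Q H, (F x).1.natAbs ^ k ≤ C0 * H ∧ (F x).2.natAbs ^ k ≤ C0 * H := by
    intro H x hx
    obtain ⟨_, _, _, _, h1, h2, _⟩ := (hF H).2 x (hQ H hx)
    have : C0' * H ≤ C0 * H := Nat.mul_le_mul_right _ (by omega)
    exact ⟨h1.trans this, h2.trans this⟩
  set D := C0 * C1 + 1 with hD
  have hD1 : 1 ≤ D := by omega
  -- the sum is at most `C T ^ 2`
  have hsum : ∀ H T : ℕ, 1 ≤ T → (∀ x ∈ Q H, (F x).1.natAbs ≤ T ∧ (F x).2.natAbs ≤ T) →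
      ∑ x ∈ Q H, RS x ≤ C * (T : ℝ) ^ 2 := by
    intro H T hT hx
    refine le_trans ?_ (hb T hT)
    obtain ⟨hinj, h2⟩ := hF H
    have h3 : ∑ x ∈ Q H, RS x ≤ ∑ t ∈ (Q H).image F, R8 (M t.1 t.2) (N t.1 t.2) := by
      rw [sum_image (fun x hx y hy hxy => hinj (hQ H hx) (hQ H hy) hxy)]
      apply sum_le_sum
      intro x hx'
      obtain ⟨_, _, _, _, _, _, h4⟩ := h2 x (hQ H hx')
      unfold RS R8
      apply Real.rpow_le_rpow_of_exponent_le (by norm_num)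
      have : ((Module.finrank ℤ (Sh x.1 x.2).toAffine.Point : ℕ) : ℝ) ≤
          ((Module.finrank ℤ (EAB (-(M (F x).1 (F x).2)) (-(N (F x).1 (F x).2))).toAffine.Point :
            ℕ) : ℝ) := by
        exact_mod_cast h4
      linarith
    refine h3.trans ?_
    apply sum_le_sum_of_subset_of_nonneg
    · intro t ht
      obtain ⟨x, hx', rfl⟩ := mem_image.1 ht
      obtain ⟨a1, a2, a3, a4, _, _, _⟩ := h2 x (hQ H hx')
      rw [mem_filter, mem_Box]
      exact ⟨hx x hx', a1, a2, a3, a4⟩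
    · intro t _ _
      unfold R8
      positivity
  refine ⟨C * ((D * (T0 + 1) : ℕ) : ℝ) ^ 2 + C * (2 * (D : ℝ)) ^ 2 / c, fun H => ?_⟩
  set K := (Q H).card with hK
  by_cases hK0 : K = 0
  · have : Q H = ∅ := card_eq_zero.1 hK0
    rw [this, sum_empty, hK0]
    simp
  have hK1 : (1 : ℝ) ≤ K := by exact_mod_cast Nat.one_le_iff_ne_zero.2 hK0
  have hq0 : 0 ≤ C * (2 * (D : ℝ)) ^ 2 / c := by positivity
  have hr0 : 0 ≤ C * ((D * (T0 + 1) : ℕ) : ℝ) ^ 2 := by positivity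
  set T := Nat.findGreatest (fun t => t ^ k ≤ C0 * H) (C0 * H) with hT
  have hle : ∀ x : ℕ, x ^ k ≤ C0 * H → x ≤ T := by
    intro x hx
    apply Nat.le_findGreatest
    · exact (Nat.le_self_pow (by omega) x).trans hx
    · exact hx
  have hTk : T ^ k ≤ C0 * H := by
    have : (fun t => t ^ k ≤ C0 * H) T :=
      Nat.findGreatest_spec (P := fun t => t ^ k ≤ C0 * H) (Nat.zero_le _)
        (by rw [zero_pow (by omega)]; exact Nat.zero_le _)
    exact this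
  have hxT : ∀ x ∈ Q H, (F x).1.natAbs ≤ T ∧ (F x).2.natAbs ≤ T := fun x hx =>
    ⟨hle _ (hF' H x hx).1, hle _ (hF' H x hx).2⟩
  rcases Nat.lt_or_ge T (D * (T0 + 1)) with hlt | hge
  · have h1 := hsum H (D * (T0 + 1)) (Nat.mul_pos hD1 (Nat.succ_pos _)) fun x hx =>
      ⟨(hxT x hx).1.trans hlt.le, (hxT x hx).2.trans hlt.le⟩
    calc _ ≤ C * ((D * (T0 + 1) : ℕ) : ℝ) ^ 2 := h1
      _ ≤ C * ((D * (T0 + 1) : ℕ) : ℝ) ^ 2 * K := le_mul_of_one_le_right hr0 hK1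
      _ ≤ _ := by
        apply mul_le_mul_of_nonneg_right _ (by linarith)
        linarith
  · have hT1 : 1 ≤ T := (Nat.mul_pos hD1 (Nat.succ_pos _)).trans_le hge
    have h1 := hsum H T hT1 hxT
    set T' := T / D with hT'
    have hT'0 : T0 + 1 ≤ T' := by
      rw [hT', Nat.le_div_iff_mul_le hD1, mul_comm]
      exact hge
    have h2 : T' * D ≤ T := Nat.div_mul_le_self T D
    have h3 : C1 * T' ^ k ≤ H := by
      have a1 : (T' * D) ^ k ≤ C0 * H := (Nat.pow_le_pow_left h2 k).trans hTk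
      rw [mul_pow] at a1
      have a2 : D ≤ D ^ k := Nat.le_self_pow (by omega) D
      have a3 : T' ^ k * (C0 * C1) ≤ C0 * H :=
        (Nat.mul_le_mul_left _ (by omega : C0 * C1 ≤ D ^ k)).trans a1
      have a4 : C0 * (C1 * T' ^ k) ≤ C0 * H := by
        calc C0 * (C1 * T' ^ k) = T' ^ k * (C0 * C1) := by ring
          _ ≤ _ := a3
      exact Nat.le_of_mul_le_mul_left a4 (by omega)
    have h4 := hlow T' H (by omega) h3
    have h5 : T ≤ 2 * D * T' := by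
      have a1 : T < D * (T' + 1) := by
        rw [mul_comm]
        exact Nat.lt_mul_of_div_lt (by rw [← hT']; omega) hD1
      have a2 : D * (T' + 1) ≤ 2 * D * T' := by nlinarith
      omega
    have h6 : (T : ℝ) ≤ 2 * D * T' := by exact_mod_cast h5
    calc _ ≤ C * (T : ℝ) ^ 2 := h1
      _ ≤ C * (2 * D * T') ^ 2 := by
        apply mul_le_mul_of_nonneg_left _ hC
        exact pow_le_pow_left₀ (Nat.cast_nonneg _) h6 2
      _ = C * (2 * D) ^ 2 / c * (c * (T' : ℝ) ^ 2) := by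
        field_simp
      _ ≤ C * (2 * D) ^ 2 / c * K := mul_le_mul_of_nonneg_left h4 hq0
      _ ≤ _ := by
        apply mul_le_mul_of_nonneg_right _ (by linarith)
        linarith

lemma tendsto_Q {k : ℕ} {Q : ℕ → Finset (ℤ × ℤ)} (h : LOWQ k Q) :
    Tendsto (fun H : ℕ => (Q H).card) atTop atTop := by
  obtain ⟨c, C, T0, hc, h⟩ := h
  rw [tendsto_atTop_atTop]
  intro b
  obtain ⟨n, hn⟩ := exists_nat_gt ((b : ℝ) / c)
  set T := max (max n T0) 1 with hT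
  have h1 : (b : ℝ) ≤ c * (T : ℝ) ^ 2 := by
    rw [div_lt_iff₀ hc] at hn
    have hT1 : (1 : ℝ) ≤ T := by exact_mod_cast (le_max_right (max n T0) 1)
    have hTn : (n : ℝ) ≤ T := by
      exact_mod_cast (le_max_left n T0).trans (le_max_left (max n T0) 1)
    have h2 : (T : ℝ) ≤ (T : ℝ) ^ 2 := by nlinarith
    nlinarith
  refine ⟨C * T ^ k, fun H hH => ?_⟩
  have h3 := h T H ((le_max_right n T0).trans (le_max_left _ 1)) hH
  exact_mod_cast h1.trans h3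

end Pool.Agent.V7H45.CY
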