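import Pool.Agent.V7H45.CY.Spec3
import Pool.Agent.V7H45.CY.Fin

/-! The number of curves tends to infinity; moments of the rank. -/

set_option autoImplicit false

namespace Pool.Agent.V7H45.CY

open Finset Filter Pool.Agent.W262.RK Pool.Agent.W307.RT

lemma tendsto_3 {Q : ℕ → Finset (ℤ × ℤ)} (h : LOW3 Q) :
    Tendsto (fun H : ℕ => (Q H).card) atTop atTop := by
  obtain ⟨c, C, T0, hc, h⟩ := h
  rw [tendsto_atTop_atTop]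
  intro b
  obtain ⟨n, hn⟩ := exists_nat_gt ((b : ℝ) / c)
  set T := max (max n T0) 1 with hT
  have h1 : (b : ℝ) ≤ c * (T : ℝ) ^ 3 := by
    rw [div_lt_iff₀ hc] at hn
    have hT1 : (1 : ℝ) ≤ T := by exact_mod_cast (le_max_right (max n T0) 1)
    have hTn : (n : ℝ) ≤ T := by
      exact_mod_cast (le_max_left n T0).trans (le_max_left (max n T0) 1)
    have h2 : (T : ℝ) ≤ (T : ℝ) ^ 3 := by
      calc (T : ℝ) = (T : ℝ) ^ 1 := (pow_one _).symm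
        _ ≤ (T : ℝ) ^ 3 := pow_le_pow_right₀ hT1 (by norm_num)
    nlinarith
  refine ⟨C * T ^ 12, fun H hH => ?_⟩
  have h3 := h T H ((le_max_right n T0).trans (le_max_left _ 1)) hH
  exact_mod_cast h1.trans h3

/-- `x ^ k` is at most a constant times `2 ^ (x / 8)` -/
lemma pow_le_two (k : ℕ) : ∃ C : ℝ, 0 ≤ C ∧ ∀ x : ℕ, (x : ℝ) ^ k ≤ C * (2 : ℝ) ^ ((x : ℝ) / 8) := by
  have hr : (1 : ℝ) < (2 : ℝ) ^ (1 / 8 : ℝ) := Real.one_lt_rpow (by norm_num) (by norm_num)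
  have h := (tendsto_pow_const_div_const_pow_of_one_lt k hr).bddAbove_range
  obtain ⟨C, hC⟩ := h
  refine ⟨max C 0, le_max_right _ _, fun x => ?_⟩
  have h1 : (x : ℝ) ^ k / ((2 : ℝ) ^ (1 / 8 : ℝ)) ^ x ≤ C := hC ⟨x, rfl⟩
  have h2 : ((2 : ℝ) ^ (1 / 8 : ℝ)) ^ x = (2 : ℝ) ^ ((x : ℝ) / 8) := by
    rw [← Real.rpow_natCast, ← Real.rpow_mul (by norm_num)]
    congr 1
    ring
  rw [h2] at h1
  have h3 : (0 : ℝ) < (2 : ℝ) ^ ((x : ℝ) / 8) := by positivity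
  calc (x : ℝ) ^ k = (x : ℝ) ^ k / (2 : ℝ) ^ ((x : ℝ) / 8) * (2 : ℝ) ^ ((x : ℝ) / 8) := by
        field_simp
    _ ≤ max C 0 * (2 : ℝ) ^ ((x : ℝ) / 8) :=
        mul_le_mul_of_nonneg_right (h1.trans (le_max_left _ _)) h3.le

/-- from the exponential moment to the moments -/
lemma moments {Q : ℕ → Finset (ℤ × ℤ)} (r : ℤ × ℤ → ℕ)
    (h : ∃ C : ℝ, ∀ H : ℕ, ∑ c ∈ Q H, (2 : ℝ) ^ ((r c : ℝ) / 8) ≤ C * ((Q H).card : ℝ))
    (k : ℕ) : ∃ C : ℝ, ∀ H : ℕ, ∑ c ∈ Q H, (r c : ℝ) ^ k ≤ C * ((Q H).card : ℝ) := by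
  obtain ⟨C, hC⟩ := h
  obtain ⟨D, hD0, hD⟩ := pow_le_two k
  refine ⟨D * C, fun H => ?_⟩
  calc ∑ c ∈ Q H, (r c : ℝ) ^ k ≤ ∑ c ∈ Q H, D * (2 : ℝ) ^ ((r c : ℝ) / 8) :=
        sum_le_sum fun c _ => hD (r c)
    _ = D * ∑ c ∈ Q H, (2 : ℝ) ^ ((r c : ℝ) / 8) := (mul_sum _ _ _).symm
    _ ≤ D * (C * ((Q H).card : ℝ)) := mul_le_mul_of_nonneg_left (hC H) hD0
    _ = _ := by ring

end Pool.Agent.V7H45.CY
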