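import Pool.Agent.V7H45.CY.SumR
import Pool.Agent.W230.RT.Avg2
import Pool.Agent.V7H45.BF.ANTc

/-! The sum of the eighth root of the local count. -/

set_option autoImplicit false

namespace Pool.Agent.V7H45.CY

open Finset Pool.Agent.W262.RK Pool.Agent.W307.RT Pool.Agent.V7H45.G8

variable {n : ℕ}

/-- the eighth root of the local factor of `TT` -/
noncomputable def tau (cls : Fin n → Fin 4) (j : Fin n) : ℝ :=
  (if cls j = 1 then (2 : ℝ) else 1 / 2) ^ (1 / 8 : ℝ)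

lemma tau_pos (cls : Fin n → Fin 4) (j : Fin n) : 0 < tau cls j := by
  unfold tau
  split_ifs <;> positivity

lemma TT_pos (cls : Fin n → Fin 4) (s : Fin n → ℕ) : 0 < TT cls s := by
  unfold TT
  apply prod_pos
  intro j _
  split_ifs <;> positivity

lemma TT_rpow (cls : Fin n → Fin 4) (s : Fin n → ℕ) :
    (TT cls s) ^ (1 / 8 : ℝ) = ∏ j, (tau cls j) ^ (s j).primeFactors.card := by
  unfold TT
  rw [← Real.finsetProd_rpow _ _ (fun j _ => by split_ifs <;> positivity)]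
  apply prod_congr rfl
  intro j _
  unfold tau
  rw [← Real.rpow_natCast, ← Real.rpow_natCast, ← Real.rpow_mul (by split_ifs <;> norm_num),
    ← Real.rpow_mul (by split_ifs <;> norm_num), mul_comm]

lemma gr_tau (D : ℤ) (w t : ℝ) (c d : ℕ) :
    t ^ d.primeFactors.card * gr D w c d = gr D (w * t) c d := by
  unfold gr
  rw [← prod_const, ← prod_mul_distrib]
  apply prod_congr rfl
  intro p _
  ring

/-- `NL^(1/8) ≤ TT^(1/8) + 1 + (NL - TT)` -/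
lemma root_le {N T : ℝ} (hT : 0 ≤ T) (h : T ≤ N) :
    N ^ (1 / 8 : ℝ) ≤ T ^ (1 / 8 : ℝ) + 1 + (N - T) := by
  have h0 : 0 ≤ N - T := by linarith
  have h1 : N ^ (1 / 8 : ℝ) ≤ T ^ (1 / 8 : ℝ) + (N - T) ^ (1 / 8 : ℝ) := by
    have := Real.rpow_add_le_add_rpow hT h0 (by norm_num : (0 : ℝ) ≤ 1 / 8)
      (by norm_num : (1 / 8 : ℝ) ≤ 1)
    rwa [add_sub_cancel] at this
  have h2 : (N - T) ^ (1 / 8 : ℝ) ≤ 1 + (N - T) := by
    rcases le_total (N - T) 1 with h3 | h3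
    · have := Real.rpow_le_one h0 h3 (by norm_num : (0 : ℝ) ≤ 1 / 8)
      linarith
    · have := Real.rpow_le_rpow_of_exponent_le h3 (by norm_num : (1 / 8 : ℝ) ≤ 1)
      rw [Real.rpow_one] at this
      linarith
  linarith

lemma NB_nn (cls : Fin n → Fin 4) (κ : Fin n → Fin 3 → ℤ) (s : Fin n → ℕ) :
    0 ≤ NB cls κ s := by
  unfold NB
  exact mul_nonneg (by positivity) (sum_nonneg fun _ _ => Nat.cast_nonneg _)

/-- **the sum of the eighth root of the local count** -/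
theorem sumF (hX : S_X) (hG : S_G) (hT : S_T) (hDd : S_D) {cls : Fin n → Fin 4} {D κ : Fin n → ℤ}
    {b0 : Fin n} {δ : ℤ} {K4 : ℕ} (hcls : ∀ j, cls j ≠ 3) (hκ : ∀ j, κ j ≠ 0)
    (hκ1 : ∀ j, cls j = 1 → κ j = 1) (hδ : δ = -1 ∨ δ = -3) (hDb : D b0 = 0)
    (hDv : ∀ j, D j = 0 ∨ D j = 2 ∨ D j = -1 ∨ D j = 3 ∨ D j = -3)
    (hgd : ∀ j, Gdc (Df D b0 δ j)) (hC : CMB cls b0 K4) (hK : (K4 : ℝ) / 4 = n - 1 / 2)
    (hW : ∑ j, wf b0 j ≤ (n : ℝ) - 1 / 2) (hE : ∑ j, wf b0 j * tau cls j ≤ (n : ℝ) - 1 / 2)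
    (c : ℕ) :
    ∃ z0 : ℕ, ∀ z, z0 ≤ z → ∃ C : ℝ, ∀ y, z < y →
      ∑ s ∈ Tup (Fin n) z y, (NB cls (fun j _ => κ j) (pos δ b0 s)) ^ (1 / 8 : ℝ) *
        ∏ j, gr (D j) 1 c (s j) ≤ C * (Real.log y) ^ n := by
  classical
  obtain ⟨z0, hz0⟩ := sumR hX (δ := δ) hcls hκ hκ1 hgd hC c
  refine ⟨z0 + 2 * c + 4, fun z hz => ?_⟩
  obtain ⟨CR, hCR⟩ := hz0 z (by omega)
  have hDf : ∀ j, Df D b0 δ j = 0 ∨ Df D b0 δ j = 2 ∨ Df D b0 δ j = -1 ∨ Df D b0 δ j = 3 ∨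
      Df D b0 δ j = -3 := by
    intro j
    unfold Df
    split_ifs with h
    · rcases hδ with h | h
      · exact Or.inr (Or.inr (Or.inl h))
      · exact Or.inr (Or.inr (Or.inr (Or.inr h)))
    · exact hDv j
  have hwf0 : ∀ j, 0 ≤ wf b0 j := by
    intro j
    unfold wf
    split_ifs <;> norm_num
  obtain ⟨C1, hC1⟩ := hT n (Df D b0 δ) (fun j => wf b0 j * tau cls j) c z hDf
    (fun j => mul_nonneg (hwf0 j) (tau_pos cls j).le) (by omega)
  obtain ⟨C2, hC2⟩ := hT n (Df D b0 δ) (wf b0) c z hDf hwf0 (by omega)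
  obtain ⟨C3, hC30, hC3⟩ := hDd n D b0 δ c z hδ hDb (by omega)
  refine ⟨C3 * (|C1| + |C2| + |CR|), fun y hy => ?_⟩
  have hz2 : 2 ≤ z := by omega
  have hly : 1 ≤ Real.log y := Pool.Agent.W262.RK.AT.one_le_log hz2 hy
  have hl0 : 0 < Real.log y := by linarith
  have hcz : c ≤ z := by omega
  have hgr0 : ∀ s ∈ Tup (Fin n) z y, 0 ≤ ∏ j, gr (Df D b0 δ j) (wf b0 j) c (s j) := by
    intro s hs
    exact prod_nonneg fun j _ => gr_nonneg (hwf0 j) hcz (Nat.mem_divisors.2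
      ⟨(mem_Tup'.1 hs).1 j, PP_ne_zero z y⟩)
  have hd := hC3 y (fun s => (NB cls (fun j _ => κ j) s) ^ (1 / 8 : ℝ)) hy
    (fun s => Real.rpow_nonneg (NB_nn _ _ _) _)
  refine hd.trans ?_
  have hpw : ∀ {C S : ℝ}, S ≤ (n : ℝ) - 1 / 2 →
      C * (Real.log y) ^ S ≤ |C| * (Real.log y) ^ ((n : ℝ) - 1 / 2) := by
    intro C S hS
    calc C * (Real.log y) ^ S ≤ |C| * (Real.log y) ^ S :=
          mul_le_mul_of_nonneg_right (le_abs_self C) (Real.rpow_nonneg hl0.le _)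
      _ ≤ _ := mul_le_mul_of_nonneg_left (Real.rpow_le_rpow_of_exponent_le hly hS) (abs_nonneg C)
  have key : ∑ s ∈ Tup (Fin n) z y, (NB cls (fun j _ => κ j) s) ^ (1 / 8 : ℝ) *
      ∏ j, gr (if j = b0 then δ else D j) (if j = b0 then 1 / 2 else 1) c (s j) ≤
      (|C1| + |C2| + |CR|) * (Real.log y) ^ ((n : ℝ) - 1 / 2) := by
    have e0 : ∀ s ∈ Tup (Fin n) z y, (NB cls (fun j _ => κ j) s) ^ (1 / 8 : ℝ) *
        ∏ j, gr (if j = b0 then δ else D j) (if j = b0 then 1 / 2 else 1) c (s j) ≤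
        ∏ j, gr (Df D b0 δ j) (wf b0 j * tau cls j) c (s j) +
          ∏ j, gr (Df D b0 δ j) (wf b0 j) c (s j) +
          (NB cls (fun j _ => κ j) s - TT cls s) * ∏ j, gr (Df D b0 δ j) (wf b0 j) c (s j) := by
      intro s hs
      have h1 : (TT cls s : ℝ) ≤ NB cls (fun j _ => κ j) s := by
        rw [Pool.Agent.W230.RT.nb_eq hcls]
        exact hG n cls κ z y hz2 hcls hκ1 s hs
      have h2 := root_le (TT_pos cls s).le h1
      have h3 := mul_le_mul_of_nonneg_right h2 (hgr0 s hs)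
      have h4 : ∏ j, gr (Df D b0 δ j) (wf b0 j * tau cls j) c (s j) =
          (TT cls s) ^ (1 / 8 : ℝ) * ∏ j, gr (Df D b0 δ j) (wf b0 j) c (s j) := by
        rw [TT_rpow, ← prod_mul_distrib]
        exact prod_congr rfl fun j _ => (gr_tau _ _ _ _ _).symm
      rw [h4]
      have h5 : ∏ j, gr (if j = b0 then δ else D j) (if j = b0 then 1 / 2 else 1) c (s j) =
          ∏ j, gr (Df D b0 δ j) (wf b0 j) c (s j) := rfl
      rw [h5]
      linarith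
    refine (sum_le_sum e0).trans ?_
    rw [sum_add_distrib, sum_add_distrib]
    have a1 := (hC1 y hy).trans (hpw (C := C1) hE)
    have a2 := (hC2 y hy).trans (hpw (C := C2) hW)
    have a3 := (hCR y hy).trans (hpw (C := CR) hK.le)
    linarith
  calc C3 * (Real.log y) ^ (1 / 2 : ℝ) * ∑ s ∈ Tup (Fin n) z y,
        (NB cls (fun j _ => κ j) s) ^ (1 / 8 : ℝ) *
        ∏ j, gr (if j = b0 then δ else D j) (if j = b0 then 1 / 2 else 1) c (s j)
      ≤ C3 * (Real.log y) ^ (1 / 2 : ℝ) *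
        ((|C1| + |C2| + |CR|) * (Real.log y) ^ ((n : ℝ) - 1 / 2)) :=
        mul_le_mul_of_nonneg_left key (by positivity)
    _ = C3 * (|C1| + |C2| + |CR|) *
        ((Real.log y) ^ (1 / 2 : ℝ) * (Real.log y) ^ ((n : ℝ) - 1 / 2)) := by ring
    _ = _ := by
      rw [← Real.rpow_add hl0, add_sub_cancel, Real.rpow_natCast]

/-- `2 ^ (1 / 8)` -/
lemma two_root : ∃ t : ℝ, 1 ≤ t ∧ t ≤ 7 / 6 ∧ (2 : ℝ) ^ (1 / 8 : ℝ) = t ∧
    (1 / 2 : ℝ) ^ (1 / 8 : ℝ) = t⁻¹ := by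
  refine ⟨(2 : ℝ) ^ (1 / 8 : ℝ), Real.one_le_rpow (by norm_num) (by norm_num), ?_, rfl, ?_⟩
  · have h1 : (2 : ℝ) ^ (1 / 8 : ℝ) ≤ ((7 / 6 : ℝ) ^ (8 : ℝ)) ^ (1 / 8 : ℝ) := by
      apply Real.rpow_le_rpow (by norm_num) _ (by norm_num)
      have : (7 / 6 : ℝ) ^ (8 : ℝ) = (7 / 6 : ℝ) ^ (8 : ℕ) := by
        rw [← Real.rpow_natCast]
        norm_num
      rw [this]
      norm_num
    rw [← Real.rpow_mul (by norm_num)] at h1
    norm_num at h1
    norm_num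
    exact h1
  · rw [one_div, Real.inv_rpow (by norm_num)]

lemma hW5 : ∑ j, wf (3 : Fin 5) j ≤ ((5 : ℕ) : ℝ) - 1 / 2 := by
  simp only [wf, Fin.sum_univ_five]
  norm_num [Fin.ext_iff]

lemma hW7 : ∑ j, wf (1 : Fin 7) j ≤ ((7 : ℕ) : ℝ) - 1 / 2 := by
  simp only [wf, Fin.sum_univ_seven]
  norm_num [Fin.ext_iff]

lemma hE5 : ∑ j, wf (3 : Fin 5) j * tau c5 j ≤ ((5 : ℕ) : ℝ) - 1 / 2 := by
  obtain ⟨t, h1, h2, h3, h4⟩ := two_root
  have a0 : tau c5 0 = t⁻¹ := by unfold tau; rw [if_neg (by decide), h4]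
  have a1 : tau c5 1 = t := by unfold tau; rw [if_pos (by decide), h3]
  have a2 : tau c5 2 = t := by unfold tau; rw [if_pos (by decide), h3]
  have a3 : tau c5 3 = t⁻¹ := by unfold tau; rw [if_neg (by decide), h4]
  have a4 : tau c5 4 = t⁻¹ := by unfold tau; rw [if_neg (by decide), h4]
  have b0 : wf (3 : Fin 5) 0 = 1 := by unfold wf; rw [if_neg (by decide)]
  have b1 : wf (3 : Fin 5) 1 = 1 := by unfold wf; rw [if_neg (by decide)]
  have b2 : wf (3 : Fin 5) 2 = 1 := by unfold wf; rw [if_neg (by decide)]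
  have b3 : wf (3 : Fin 5) 3 = 1 / 2 := by unfold wf; rw [if_pos rfl]
  have b4 : wf (3 : Fin 5) 4 = 1 := by unfold wf; rw [if_neg (by decide)]
  rw [Fin.sum_univ_five, a0, a1, a2, a3, a4, b0, b1, b2, b3, b4]
  have ht : 0 < t := by linarith
  have e : 1 * t⁻¹ + 1 * t + 1 * t + 1 / 2 * t⁻¹ + 1 * t⁻¹ = (2 * t ^ 2 + 5 / 2) / t := by
    field_simp
    ring
  rw [e, div_le_iff₀ ht]
  push_cast
  nlinarith

lemma hE7 : ∑ j, wf (1 : Fin 7) j * tau c7 j ≤ ((7 : ℕ) : ℝ) - 1 / 2 := by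
  obtain ⟨t, h1, h2, h3, h4⟩ := two_root
  have a0 : tau c7 0 = t⁻¹ := by unfold tau; rw [if_neg (by decide), h4]
  have a1 : tau c7 1 = t⁻¹ := by unfold tau; rw [if_neg (by decide), h4]
  have a2 : tau c7 2 = t := by unfold tau; rw [if_pos (by decide), h3]
  have a3 : tau c7 3 = t := by unfold tau; rw [if_pos (by decide), h3]
  have a4 : tau c7 4 = t := by unfold tau; rw [if_pos (by decide), h3]
  have a5 : tau c7 5 = t⁻¹ := by unfold tau; rw [if_neg (by decide), h4]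
  have a6 : tau c7 6 = t⁻¹ := by unfold tau; rw [if_neg (by decide), h4]
  have b0 : wf (1 : Fin 7) 0 = 1 := by unfold wf; rw [if_neg (by decide)]
  have b1 : wf (1 : Fin 7) 1 = 1 / 2 := by unfold wf; rw [if_pos rfl]
  have b2 : wf (1 : Fin 7) 2 = 1 := by unfold wf; rw [if_neg (by decide)]
  have b3 : wf (1 : Fin 7) 3 = 1 := by unfold wf; rw [if_neg (by decide)]
  have b4 : wf (1 : Fin 7) 4 = 1 := by unfold wf; rw [if_neg (by decide)]
  have b5 : wf (1 : Fin 7) 5 = 1 := by unfold wf; rw [if_neg (by decide)]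
  have b6 : wf (1 : Fin 7) 6 = 1 := by unfold wf; rw [if_neg (by decide)]
  rw [Fin.sum_univ_seven, a0, a1, a2, a3, a4, a5, a6, b0, b1, b2, b3, b4, b5, b6]
  have ht : 0 < t := by linarith
  have e : 1 * t⁻¹ + 1 / 2 * t⁻¹ + 1 * t + 1 * t + 1 * t + 1 * t⁻¹ + 1 * t⁻¹ =
      (3 * t ^ 2 + 7 / 2) / t := by
    field_simp
    ring
  rw [e, div_le_iff₀ ht]
  push_cast
  nlinarith

end Pool.Agent.V7H45.CY
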