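import Pool.Agent.V7H45.CY.Spec3
import Pool.Agent.V7H45.CY.SumF
import Pool.Agent.V7H45.CY.AT3

/-! The sum of the local majorant for the curves with a point of order four. -/

set_option autoImplicit false

namespace Pool.Agent.V7H45.CY

open Finset Pool.Agent.W262.RK Pool.Agent.W307.RT Pool.Agent.V7H45.G8

/-- the explicit indices of the class `k` -/
def PK (cls : Fin 3 → Fin 4) (k : Fin 4) : Finset (I4 cls) :=
  univ.filter (fun i => cls i.1.1 = k ∨ i.1.2 = ((false, false), (false, false)))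

lemma mem_PK {cls : Fin 3 → Fin 4} {k : Fin 4} {i : I4 cls} :
    i ∈ PK cls k ↔ cls (ty cls i).1 = k ∨ (ty cls i).2 = (false, false) := by
  unfold PK ty
  rw [mem_filter]
  simp only [mem_univ, true_and, Prod.ext_iff, decide_eq_false_iff_not, not_not]

lemma LY_K : ∀ k : Fin 4, ∀ x y : Y4, (x.1 = k ∨ x.2 = (false, false)) →
    (y.1 = k ∨ y.2 = (false, false)) → LY x y = false := by
  decide +kernel

lemma A3 : ∀ k : Fin 3 × Bool × Bool, k.2 ≠ (false, false) →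
    ∑ x ∈ univ.filter (fun x : Fin 3 × Bool × Bool => x.2 = (false, false) ∨ x.2 = k.2),
      wq 0 x ≤ 10 := by decide +kernel

lemma B3 : ∀ k : Fin 3 × Bool × Bool, c3 k.1 ≠ 1 → c3 k.1 ≠ 2 → k.2 ≠ (false, false) →
    ∑ x ∈ univ.filter (fun x : Fin 3 × Bool × Bool => x.2 = (false, false) ∨ c3 x.1 = c3 k.1),
      wq 0 x ≤ 10 := by decide +kernel

lemma C31 : ∀ k : Fin 3 × Bool × Bool, c3 k.1 ≠ 1 → k.2 ≠ (false, false) →
    ∑ x ∈ univ.filter (fun x : Fin 3 × Bool × Bool => (c3 x.1 = 1 ∨ x.2 = (false, false)) ∧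
      LY (tc c3 x) (tc c3 k) = LY (tc c3 k) (tc c3 x)), wq 0 x < 10 := by decide +kernel

lemma C32 : ∀ k : Fin 3 × Bool × Bool, c3 k.1 ≠ 2 → k.2 ≠ (false, false) →
    ∑ x ∈ univ.filter (fun x : Fin 3 × Bool × Bool => (c3 x.1 = 2 ∨ x.2 = (false, false)) ∧
      LY (tc c3 x) (tc c3 k) = LY (tc c3 k) (tc c3 x)), wq 0 x < 10 := by decide +kernel

lemma c3_ne : ∀ j, c3 j ≠ 3 := by decide

lemma nat_le10 {S : ℕ} (h : S ≤ 10) : (S : ℝ) / 4 ≤ 5 / 2 := by
  have : (S : ℝ) ≤ 10 := by exact_mod_cast h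
  linarith

lemma nat_lt10 {S : ℕ} (h : S < 10) : (S : ℝ) / 4 < 5 / 2 := by
  have : (S : ℝ) < 10 := by exact_mod_cast h
  linarith

/-- the sum of the local count beyond the two explicit parts -/
theorem sumR3 (hX : S_X4) (c : ℕ) :
    ∃ z0 : ℕ, ∀ z, z0 ≤ z → ∃ C : ℝ, ∀ y, z < y →
      ∑ s ∈ Tup (Fin 3) z y, (NB c3 (fun j _ => κ3 j) s - TK c3 κ3 1 s - TK c3 κ3 2 s +
        ∏ j, (1 / 2 : ℝ) ^ (s j).primeFactors.card) *
        ∏ j, gr 0 (wf 0 j) c (s j) ≤ C * (Real.log y) ^ (5 / 2 : ℝ) := by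
  classical
  have hcls := c3_ne
  obtain ⟨z0, hz0⟩ := at3 (I4 c3) (fun _ => 0) (fun i => w4 c3 i * wf 0 i.1.1)
    (L4 c3) (κ4 c3 (fun j _ => κ3 j)) c (5 / 2) (PK c3 1) (PK c3 2) (fun i => gdc0)
    (fun i => by
      rw [w_eq hcls]
      unfold wq
      split_ifs <;> norm_num)
    (L4_self c3) (κ4_ne c3 _ fun j _ => by revert j; decide) (by norm_num)
    (fun i hi j hj => by
      rw [mem_PK] at hi hj
      rw [L_ty hcls]
      exact LY_K 1 _ _ hi hj)
    (fun i hi j hj => by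
      rw [mem_PK] at hi hj
      rw [L_ty hcls]
      exact LY_K 2 _ _ hi hj)
    (fun U hU hk hk' => by
      obtain ⟨k, hk, hkP⟩ := hk
      obtain ⟨k', hk', hkP'⟩ := hk'
      rw [mem_PK, not_or] at hkP hkP'
      by_cases h : ∀ i ∈ U, (ty c3 i).2 = (false, false) ∨ (ty c3 i).2 = (ty c3 k).2
      · refine (sum_le_of hcls 0 U (univ.filter (fun x : Fin 3 × Bool × Bool =>
          x.2 = (false, false) ∨ x.2 = (ty c3 k).2))
          (fun i hi => mem_filter.2 ⟨mem_univ _, h i hi⟩)).trans ?_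
        exact nat_le10 (A3 _ hkP.2)
      · push Not at h
        obtain ⟨x, hx, hx1, hx2⟩ := h
        have hall : ∀ i ∈ U, (ty c3 i).2 = (false, false) ∨
            c3 (ty c3 i).1 = c3 (ty c3 k).1 := fun i hi =>
          LY_aux (tc c3 (ty c3 k)) (tc c3 (ty c3 x)) (tc c3 (ty c3 i))
            (by rw [← L_ty hcls, ← L_ty hcls]; exact hU k hk x hx)
            (by rw [← L_ty hcls, ← L_ty hcls]; exact hU k hk i hi)
            (by rw [← L_ty hcls, ← L_ty hcls]; exact hU x hx i hi)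
            (by rw [not_or]; exact ⟨hx1, hx2⟩) hkP.2
        have hk2 : c3 (ty c3 k).1 ≠ 2 := by
          intro h2
          rcases hall k' hk' with h3 | h3
          · exact hkP'.2 h3
          · exact hkP'.1 (h3.trans h2)
        refine (sum_le_of hcls 0 U (univ.filter (fun x : Fin 3 × Bool × Bool =>
          x.2 = (false, false) ∨ c3 x.1 = c3 (ty c3 k).1)) (fun i hi =>
            mem_filter.2 ⟨mem_univ _, hall i hi⟩)).trans ?_
        exact nat_le10 (B3 _ hkP.1 hk2 hkP.2))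
    (fun b hb => by
      rw [mem_PK, not_or] at hb
      refine lt_of_le_of_lt (sum_le_of hcls 0 _ (univ.filter (fun x : Fin 3 × Bool × Bool =>
        (c3 x.1 = 1 ∨ x.2 = (false, false)) ∧ LY (tc c3 x) (tc c3 (ty c3 b)) =
          LY (tc c3 (ty c3 b)) (tc c3 x))) (fun i hi => ?_)) (nat_lt10 (C31 _ hb.1 hb.2))
      rw [mem_filter, mem_PK, L_ty hcls, L_ty hcls] at hi
      exact mem_filter.2 ⟨mem_univ _, hi⟩)
    (fun b hb => by
      rw [mem_PK, not_or] at hb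
      refine lt_of_le_of_lt (sum_le_of hcls 0 _ (univ.filter (fun x : Fin 3 × Bool × Bool =>
        (c3 x.1 = 2 ∨ x.2 = (false, false)) ∧ LY (tc c3 x) (tc c3 (ty c3 b)) =
          LY (tc c3 (ty c3 b)) (tc c3 x))) (fun i hi => ?_)) (nat_lt10 (C32 _ hb.1 hb.2))
      rw [mem_filter, mem_PK, L_ty hcls, L_ty hcls] at hi
      exact mem_filter.2 ⟨mem_univ _, hi⟩)
  refine ⟨z0 + 1, fun z hz => ?_⟩
  obtain ⟨C, hC⟩ := hz0 z (by omega)
  refine ⟨C, fun y hy => ?_⟩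
  have h1 : ∀ (j : Fin 3) (d : ℕ), gr 0 (wf 0 j) c d =
      ∏ p ∈ d.primeFactors, wf 0 j * (1 + Jr 0 p) / ((p : ℝ) - c) := fun j d => rfl
  simp only [h1]
  rw [hX 3 c3 κ3 (fun j p => wf 0 j * (1 + Jr 0 p) / ((p : ℝ) - c)) z y hcls (by decide)
    (fun j => by
      have : (κ3 j).natAbs ≤ 1 := by revert j; decide
      omega)]
  refine le_trans (le_of_eq ?_) (le_trans (le_abs_self _) (hC y hy))
  apply sum_congr
  · apply filter_congr
    intro d _
    have key : ∀ k : Fin 4, (∃ i : I4 c3, ¬ (c3 i.1.1 = k ∨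
        i.1.2 = ((false, false), (false, false))) ∧ d i ≠ 1) ↔ ∃ i, i ∉ PK c3 k ∧ d i ≠ 1 := by
      intro k
      constructor
      · rintro ⟨i, h1, h2⟩
        exact ⟨i, fun h => h1 (mem_filter.1 h).2, h2⟩
      · rintro ⟨i, h1, h2⟩
        exact ⟨i, fun h => h1 (mem_filter.2 ⟨mem_univ _, h⟩), h2⟩
    rw [key 1, key 2]
  · intro d _
    congr 1
    apply prod_congr rfl
    intro i _
    unfold gr
    apply prod_congr rfl
    intro p _
    ring

/-- the classes exchanged -/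
def c3' : Fin 3 → Fin 4 := ![0, 0, 1]

lemma TK_le (cls cls' : Fin 3 → Fin 4) (κ : Fin 3 → ℤ) (k : Fin 4)
    (h : ∀ j, cls j = k ↔ cls' j = 1) (s : Fin 3 → ℕ) : TK cls κ k s ≤ TT cls' s := by
  unfold TK TT
  apply prod_le_prod
  · intro j _
    apply prod_nonneg
    intro p _
    split_ifs
    · have := (abs_le.1 (abs_Jr_le (κ j) p)).1
      linarith
    · norm_num
  · intro j _
    rw [← prod_const]
    apply prod_le_prod
    · intro p _
      split_ifs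
      · have := (abs_le.1 (abs_Jr_le (κ j) p)).1
        linarith
      · norm_num
    · intro p _
      by_cases hj : cls j = k
      · rw [if_pos hj, if_pos ((h j).1 hj)]
        have := (abs_le.1 (abs_Jr_le (κ j) p)).2
        linarith
      · rw [if_neg hj, if_neg (fun h' => hj ((h j).2 h'))]

lemma TK_nonneg (cls : Fin 3 → Fin 4) (κ : Fin 3 → ℤ) (k : Fin 4) (s : Fin 3 → ℕ) :
    0 ≤ TK cls κ k s := by
  unfold TK
  apply prod_nonneg
  intro j _
  apply prod_nonneg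
  intro p _
  split_ifs
  · have := (abs_le.1 (abs_Jr_le (κ j) p)).1
    linarith
  · norm_num

/-- `N^(1/8) ≤ T1^(1/8) + T2^(1/8) + 1 + (N - T1 - T2 + 1)` -/
lemma root_le2 {N T1 T2 U1 U2 : ℝ} (hN : 0 ≤ N) (h1 : 0 ≤ T1) (h2 : 0 ≤ T2) (hU1 : T1 ≤ U1)
    (hU2 : T2 ≤ U2) (h : T1 + T2 ≤ N + 1) :
    N ^ (1 / 8 : ℝ) ≤ U1 ^ (1 / 8 : ℝ) + U2 ^ (1 / 8 : ℝ) + 1 + (N - T1 - T2 + 1) := by
  have h0 : 0 ≤ N - T1 - T2 + 1 := by linarith
  have e8 : (0 : ℝ) ≤ 1 / 8 := by norm_num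
  have e81 : (1 / 8 : ℝ) ≤ 1 := by norm_num
  have a1 : N ^ (1 / 8 : ℝ) ≤ (T1 + T2 + (N - T1 - T2 + 1)) ^ (1 / 8 : ℝ) :=
    Real.rpow_le_rpow hN (by linarith) e8
  have a2 := Real.rpow_add_le_add_rpow (add_nonneg h1 h2) h0 e8 e81
  have a3 := Real.rpow_add_le_add_rpow h1 h2 e8 e81
  have a4 : (N - T1 - T2 + 1) ^ (1 / 8 : ℝ) ≤ 1 + (N - T1 - T2 + 1) := by
    rcases le_total (N - T1 - T2 + 1) 1 with h3 | h3
    · have := Real.rpow_le_one h0 h3 e8
      linarith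
    · have := Real.rpow_le_rpow_of_exponent_le h3 e81
      rw [Real.rpow_one] at this
      linarith
  have a5 := Real.rpow_le_rpow h1 hU1 e8
  have a6 := Real.rpow_le_rpow h2 hU2 e8
  linarith

lemma hW3 : ∑ j, wf (0 : Fin 3) j ≤ (5 / 2 : ℝ) := by
  simp only [wf, Fin.sum_univ_three]
  norm_num [Fin.ext_iff]

lemma hE3 : ∑ j, wf (0 : Fin 3) j * tau c3 j ≤ (5 / 2 : ℝ) := by
  obtain ⟨t, h1, h2, h3, h4⟩ := two_root
  have a0 : tau c3 0 = t⁻¹ := by unfold tau; rw [if_neg (by decide), h4]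
  have a1 : tau c3 1 = t := by unfold tau; rw [if_pos (by decide), h3]
  have a2 : tau c3 2 = t⁻¹ := by unfold tau; rw [if_neg (by decide), h4]
  have b0 : wf (0 : Fin 3) 0 = 1 / 2 := by unfold wf; rw [if_pos rfl]
  have b1 : wf (0 : Fin 3) 1 = 1 := by unfold wf; rw [if_neg (by decide)]
  have b2 : wf (0 : Fin 3) 2 = 1 := by unfold wf; rw [if_neg (by decide)]
  rw [Fin.sum_univ_three, a0, a1, a2, b0, b1, b2]
  have ht : 0 < t := by linarith
  have e : 1 / 2 * t⁻¹ + 1 * t + 1 * t⁻¹ = (t ^ 2 + 3 / 2) / t := by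
    field_simp
    ring
  rw [e, div_le_iff₀ ht]
  nlinarith

lemma hE3' : ∑ j, wf (0 : Fin 3) j * tau c3' j ≤ (5 / 2 : ℝ) := by
  obtain ⟨t, h1, h2, h3, h4⟩ := two_root
  have a0 : tau c3' 0 = t⁻¹ := by unfold tau; rw [if_neg (by decide), h4]
  have a1 : tau c3' 1 = t⁻¹ := by unfold tau; rw [if_neg (by decide), h4]
  have a2 : tau c3' 2 = t := by unfold tau; rw [if_pos (by decide), h3]
  have b0 : wf (0 : Fin 3) 0 = 1 / 2 := by unfold wf; rw [if_pos rfl]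
  have b1 : wf (0 : Fin 3) 1 = 1 := by unfold wf; rw [if_neg (by decide)]
  have b2 : wf (0 : Fin 3) 2 = 1 := by unfold wf; rw [if_neg (by decide)]
  rw [Fin.sum_univ_three, a0, a1, a2, b0, b1, b2]
  have ht : 0 < t := by linarith
  have e : 1 / 2 * t⁻¹ + 1 * t⁻¹ + 1 * t = (t ^ 2 + 3 / 2) / t := by
    field_simp
    ring
  rw [e, div_le_iff₀ ht]
  nlinarith

/-- the sum of the eighth root of the local count -/
theorem sumN3 (hX : S_X4) (hG : S_G4) (hT : S_T) (c : ℕ) :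
    ∃ z0 : ℕ, ∀ z, z0 ≤ z → ∃ C : ℝ, ∀ y, z < y →
      ∑ s ∈ Tup (Fin 3) z y, (NB c3 (fun j _ => κ3 j) s) ^ (1 / 8 : ℝ) *
        ∏ j, gr 0 (wf 0 j) c (s j) ≤ C * (Real.log y) ^ (5 / 2 : ℝ) := by
  classical
  obtain ⟨z0, hz0⟩ := sumR3 hX c
  refine ⟨z0 + 2 * c + 4, fun z hz => ?_⟩
  obtain ⟨CR, hCR⟩ := hz0 z (by omega)
  have hwf0 : ∀ j, 0 ≤ wf (0 : Fin 3) j := by
    intro j
    unfold wf
    split_ifs <;> norm_num
  obtain ⟨C1, hC1⟩ := hT 3 (fun _ => 0) (fun j => wf 0 j * tau c3 j) c z (fun _ => Or.inl rfl)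
    (fun j => mul_nonneg (hwf0 j) (tau_pos c3 j).le) (by omega)
  obtain ⟨C1', hC1'⟩ := hT 3 (fun _ => 0) (fun j => wf 0 j * tau c3' j) c z
    (fun _ => Or.inl rfl) (fun j => mul_nonneg (hwf0 j) (tau_pos c3' j).le) (by omega)
  obtain ⟨C2, hC2⟩ := hT 3 (fun _ => 0) (wf 0) c z (fun _ => Or.inl rfl) hwf0 (by omega)
  refine ⟨|C1| + |C1'| + |C2| + |C2| + |CR|, fun y hy => ?_⟩
  have hz2 : 2 ≤ z := by omega
  have hly : 1 ≤ Real.log y := Pool.Agent.W262.RK.AT.one_le_log hz2 hy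
  have hl0 : 0 < Real.log y := by linarith
  have hcz : c ≤ z := by omega
  have hgr0 : ∀ s ∈ Tup (Fin 3) z y, 0 ≤ ∏ j, gr 0 (wf 0 j) c (s j) := by
    intro s hs
    exact prod_nonneg fun j _ => gr_nonneg (hwf0 j) hcz (Nat.mem_divisors.2
      ⟨(mem_Tup'.1 hs).1 j, PP_ne_zero z y⟩)
  have hpw : ∀ {C S : ℝ}, S ≤ (5 / 2 : ℝ) →
      C * (Real.log y) ^ S ≤ |C| * (Real.log y) ^ (5 / 2 : ℝ) := by
    intro C S hS
    calc C * (Real.log y) ^ S ≤ |C| * (Real.log y) ^ S :=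
          mul_le_mul_of_nonneg_right (le_abs_self C) (Real.rpow_nonneg hl0.le _)
      _ ≤ _ := mul_le_mul_of_nonneg_left (Real.rpow_le_rpow_of_exponent_le hly hS) (abs_nonneg C)
  have e0 : ∀ s ∈ Tup (Fin 3) z y, (NB c3 (fun j _ => κ3 j) s) ^ (1 / 8 : ℝ) *
      ∏ j, gr 0 (wf 0 j) c (s j) ≤
      ∏ j, gr 0 (wf 0 j * tau c3 j) c (s j) + ∏ j, gr 0 (wf 0 j * tau c3' j) c (s j) +
        ∏ j, gr 0 (wf 0 j) c (s j) + ∏ j, gr 0 (wf 0 j) c (s j) +
        (NB c3 (fun j _ => κ3 j) s - TK c3 κ3 1 s - TK c3 κ3 2 s +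
          ∏ j, (1 / 2 : ℝ) ^ (s j).primeFactors.card) * ∏ j, gr 0 (wf 0 j) c (s j) := by
    intro s hs
    have h1 : TK c3 κ3 1 s + TK c3 κ3 2 s ≤ NB c3 (fun j _ => κ3 j) s + 1 := by
      rw [Pool.Agent.W230.RT.nb_eq c3_ne]
      exact hG 3 c3 κ3 z y hz2 c3_ne (by decide) (fun j => by
        have : (κ3 j).natAbs ≤ 1 := by revert j; decide
        omega) s hs
    have h2 := root_le2 (NB_nn _ _ _) (TK_nonneg c3 κ3 1 s) (TK_nonneg c3 κ3 2 s)
      (TK_le c3 c3 κ3 1 (by decide) s) (TK_le c3 c3' κ3 2 (by decide) s) h1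
    have h3 := mul_le_mul_of_nonneg_right h2 (hgr0 s hs)
    have h4 : ∀ cl : Fin 3 → Fin 4, ∏ j, gr 0 (wf 0 j * tau cl j) c (s j) =
        (TT cl s) ^ (1 / 8 : ℝ) * ∏ j, gr 0 (wf 0 j) c (s j) := by
      intro cl
      rw [TT_rpow, ← prod_mul_distrib]
      exact prod_congr rfl fun j _ => (gr_tau _ _ _ _ _).symm
    rw [h4, h4]
    have h5 : 0 ≤ (∏ j, (1 / 2 : ℝ) ^ (s j).primeFactors.card) *
        ∏ j, gr 0 (wf 0 j) c (s j) := mul_nonneg (by positivity) (hgr0 s hs)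
    linarith
  refine (sum_le_sum e0).trans ?_
  rw [sum_add_distrib, sum_add_distrib, sum_add_distrib, sum_add_distrib]
  have a1 := (hC1 y hy).trans (hpw (C := C1) hE3)
  have a1' := (hC1' y hy).trans (hpw (C := C1') hE3')
  have a2 := (hC2 y hy).trans (hpw (C := C2) hW3)
  have a3 := (hCR y hy).trans (hpw (C := CR) le_rfl)
  linarith

lemma gr_zero {z y d : ℕ} (w : ℝ) (c : ℕ) (hd : d ∈ (PP z y).divisors) :
    gr 0 w c d = gw w c d := by
  unfold gr gw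
  apply prod_congr rfl
  intro p hp
  rw [Jr_zero_of_prime (Nat.prime_of_mem_primeFactors hp)]
  ring

lemma gw_half (c d : ℕ) : (1 / 2 : ℝ) ^ d.primeFactors.card * gw 1 c d = gw (1 / 2) c d := by
  unfold gw
  rw [← prod_const, ← prod_mul_distrib]
  apply prod_congr rfl
  intro p _
  ring

/-- **the sum of the local majorant** -/
theorem sum3 (hX : S_X4) (hG : S_G4) (hT : S_T) : SUM3 := by
  classical
  intro c
  obtain ⟨z0, hz0⟩ := sumN3 hX hG hT c
  refine ⟨z0 + 2 * c + 4, fun z hz => ?_⟩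
  obtain ⟨C1, hC1⟩ := hz0 z (by omega)
  obtain ⟨C2, hC2, _, _⟩ := fullr 0 gdc0 (1 / 2) c 0 (by norm_num) le_rfl z (by omega)
  refine ⟨|C1| * |C2|, fun y hy => ?_⟩
  have hz2 : 2 ≤ z := by omega
  have hly : 1 ≤ Real.log y := Pool.Agent.W262.RK.AT.one_le_log hz2 hy
  have hl0 : 0 < Real.log y := by linarith
  have hcz : c ≤ z := by omega
  set h : (Fin 3 → ℕ) → ℝ := fun s => (NB c3 (fun j _ => κ3 j) s) ^ (1 / 8 : ℝ) *
    ∏ j, gr 0 (wf 0 j) c (s j) with hh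
  have hwf0 : ∀ j, 0 ≤ wf (0 : Fin 3) j := by
    intro j
    unfold wf
    split_ifs <;> norm_num
  have hh0 : ∀ s ∈ Tup (Fin 3) z y, 0 ≤ h s := fun s hs =>
    mul_nonneg (Real.rpow_nonneg (NB_nn _ _ _) _) (prod_nonneg fun j _ =>
      gr_nonneg (hwf0 j) hcz (Nat.mem_divisors.2 ⟨(mem_Tup'.1 hs).1 j, PP_ne_zero z y⟩))
  have e1 : ∑ s ∈ Tup (Fin 3) z y, G3 s * ∏ j, gw 1 c (s j) =
      ∑ x ∈ (Tup (Fin 3) z y).sigma (fun s => (s 0).divisors),
        h (up3 x.2 x.1) * gw (1 / 2) c (x.1 0 / x.2) := by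
    rw [sum_sigma]
    apply sum_congr rfl
    intro s hs
    unfold G3
    rw [mul_right_comm, mul_comm, sum_mul]
    apply sum_congr rfl
    intro a ha
    have hs0 : s 0 ∈ (PP z y).divisors :=
      Nat.mem_divisors.2 ⟨(mem_Tup'.1 hs).1 0, PP_ne_zero z y⟩
    have had := Nat.dvd_of_mem_divisors ha
    obtain ⟨b, hb⟩ := had
    have ha0 : 0 < a := Nat.pos_of_mem_divisors ha
    have hab : a.Coprime b := Nat.coprime_of_squarefree_mul (hb ▸ dv_squarefree hs0)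
    have hdiv : s 0 / a = b := by rw [hb, Nat.mul_div_cancel_left _ ha0]
    have hcard : (s 0).primeFactors.card = a.primeFactors.card + b.primeFactors.card := by
      rw [hb, Nat.Coprime.primeFactors_mul hab, card_union_of_disjoint hab.disjoint_primeFactors]
    have hgw : gw 1 c (s 0) = gw 1 c a * gw 1 c b := by
      unfold gw
      rw [hb, Nat.Coprime.primeFactors_mul hab, prod_union hab.disjoint_primeFactors]
    have haD : a ∈ (PP z y).divisors := Nat.mem_divisors.2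
      ⟨(Nat.dvd_of_mem_divisors ha).trans ((mem_Tup'.1 hs).1 0), PP_ne_zero z y⟩
    have hg : ∀ j, gr 0 (wf 0 j) c (up3 a s j) = gw (wf 0 j) c (up3 a s j) := by
      intro j
      apply gr_zero (z := z) (y := y)
      fin_cases j
      · exact haD
      · exact Nat.mem_divisors.2 ⟨(mem_Tup'.1 hs).1 1, PP_ne_zero z y⟩
      · exact Nat.mem_divisors.2 ⟨(mem_Tup'.1 hs).1 2, PP_ne_zero z y⟩
    have hpr : ∏ j, gr 0 (wf 0 j) c (up3 a s j) = gw (1 / 2) c a * gw 1 c (s 1) *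
        gw 1 c (s 2) := by
      rw [prod_congr rfl fun j _ => hg j, Fin.prod_univ_three]
      have b0 : wf (0 : Fin 3) 0 = 1 / 2 := by unfold wf; rw [if_pos rfl]
      have b1 : wf (0 : Fin 3) 1 = 1 := by unfold wf; rw [if_neg (by decide)]
      have b2 : wf (0 : Fin 3) 2 = 1 := by unfold wf; rw [if_neg (by decide)]
      rw [b0, b1, b2]
      rfl
    rw [hh]
    simp only
    rw [hdiv, hpr, Fin.prod_univ_three, hcard, hgw, pow_add, ← gw_half c a, ← gw_half c b]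
    ring
  rw [e1]
  have e2 : ∑ x ∈ (Tup (Fin 3) z y).sigma (fun s => (s 0).divisors),
        h (up3 x.2 x.1) * gw (1 / 2) c (x.1 0 / x.2) ≤
      ∑ x ∈ (Tup (Fin 3) z y) ×ˢ (PP z y).divisors, h x.1 * gw (1 / 2) c x.2 := by
    set φ : (Σ _ : Fin 3 → ℕ, ℕ) → (Fin 3 → ℕ) × ℕ := fun x => (up3 x.2 x.1, x.1 0 / x.2) with hφ
    have hinj : Set.InjOn φ ((Tup (Fin 3) z y).sigma (fun s => (s 0).divisors) :
        Set (Σ _ : Fin 3 → ℕ, ℕ)) := by
      rintro ⟨s, a⟩ hx ⟨s', a'⟩ hx' hxx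
      rw [mem_coe, mem_sigma] at hx hx'
      simp only at hx hx'
      rw [hφ] at hxx
      simp only [Prod.mk.injEq] at hxx
      obtain ⟨h1, h2⟩ := hxx
      have ea : a = a' := congrFun h1 0
      have e1 : s 1 = s' 1 := congrFun h1 1
      have e2 : s 2 = s' 2 := congrFun h1 2
      subst ea
      have e0 : s 0 = s' 0 := by
        rw [← Nat.div_mul_cancel (Nat.dvd_of_mem_divisors hx.2),
          ← Nat.div_mul_cancel (Nat.dvd_of_mem_divisors hx'.2), h2]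
      have : s = s' := by
        funext j
        fin_cases j
        · exact e0
        · exact e1
        · exact e2
      subst this
      rfl
    rw [← sum_image (f := fun x : (Fin 3 → ℕ) × ℕ => h x.1 * gw (1 / 2) c x.2) (g := φ)
      (fun x hx y hy hxy => hinj hx hy hxy)]
    apply sum_le_sum_of_subset_of_nonneg
    · intro x hx
      obtain ⟨⟨s, a⟩, hsa, rfl⟩ := mem_image.1 hx
      rw [mem_sigma] at hsa
      simp only at hsa
      rw [hφ, mem_product]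
      simp only
      have had := Nat.dvd_of_mem_divisors hsa.2
      refine ⟨Tup_dvd hsa.1 (fun j => ?_), ?_⟩
      · fin_cases j
        · exact had
        · exact dvd_refl _
        · exact dvd_refl _
      · exact Nat.mem_divisors.2 ⟨(Nat.div_dvd_of_dvd had).trans ((mem_Tup'.1 hsa.1).1 0),
          PP_ne_zero z y⟩
    · intro x hx _
      rw [mem_product] at hx
      exact mul_nonneg (hh0 _ hx.1) (gw_nonneg (by norm_num) hcz hx.2)
  refine e2.trans ?_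
  rw [sum_product, ← sum_mul_sum]
  have a1 : ∑ s ∈ Tup (Fin 3) z y, h s ≤ |C1| * (Real.log y) ^ (5 / 2 : ℝ) :=
    (hC1 y hy).trans (mul_le_mul_of_nonneg_right (le_abs_self C1) (Real.rpow_nonneg hl0.le _))
  have a2 : ∑ d ∈ (PP z y).divisors, gw (1 / 2) c d ≤ |C2| * (Real.log y) ^ (1 / 2 : ℝ) := by
    have e3 : ∑ d ∈ (PP z y).divisors, gw (1 / 2) c d =
        ∑ d ∈ (PP z y).divisors, gr 0 (1 / 2) c d * hA 0 d := by
      apply sum_congr rfl
      intro d hd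
      rw [gr_zero _ _ hd]
      unfold hA
      simp
    rw [e3]
    exact (hC2 y hy).trans (mul_le_mul_of_nonneg_right (le_abs_self C2)
      (Real.rpow_nonneg hl0.le _))
  have a3 : 0 ≤ ∑ d ∈ (PP z y).divisors, gw (1 / 2) c d :=
    sum_nonneg fun d hd => gw_nonneg (by norm_num) hcz hd
  calc (∑ s ∈ Tup (Fin 3) z y, h s) * ∑ d ∈ (PP z y).divisors, gw (1 / 2) c d
      ≤ (|C1| * (Real.log y) ^ (5 / 2 : ℝ)) * (|C2| * (Real.log y) ^ (1 / 2 : ℝ)) :=
        mul_le_mul a1 a2 a3 (by positivity)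
    _ = |C1| * |C2| * ((Real.log y) ^ (5 / 2 : ℝ) * (Real.log y) ^ (1 / 2 : ℝ)) := by ring
    _ = |C1| * |C2| * (Real.log y) ^ 3 := by
      rw [← Real.rpow_add hl0, ← Real.rpow_natCast]
      norm_num

end Pool.Agent.V7H45.CY
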