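import Pool.Agent.V7H45.CY.Main
import Pool.Agent.V7H45.CY.Mom
import Pool.Agent.V7H45.CY.Sum3
import Pool.Agent.V7H30.CY.Q4
import Pool.Agent.V7H30.CY.NG
import Pool.Agent.V7H33.CY.N4c
import Pool.Agent.V7H34.CY.R4
import Pool.Agent.V7H34.CY.A4
import Pool.Agent.V7H58.CY.G4
import Pool.Agent.V7H88.CY.X4
import Pool.Agent.V7H63.CY.K4
import Pool.Agent.V7H95.CY.E4
import Pool.Agent.V7H95.CY.Z4

/-! The curves with cyclic torsion groups of order 4. -/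

set_option autoImplicit false

namespace Pool.Agent.V7H45.CY

open Finset Filter Pool.Agent.W262.RK Pool.Agent.W307.RT

/-- the average over the weighted box -/
theorem avg_3 : AVG3 :=
  Pool.Agent.V7H34.CY.t_A4 (Pool.Agent.V7H33.CY.t_N4 Pool.Agent.V7H30.CY.t_NG)
    Pool.Agent.V7H34.CY.t_R4
    (sum3 Pool.Agent.V7H88.CY.t_X4 Pool.Agent.V7H58.CY.t_G4 Pool.Agent.V7H88.CY.t_T)

lemma low_Q4 : LOW3 Q4 := Pool.Agent.V7H95.CY.t_E4 Pool.Agent.V7H63.CY.t_K4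

lemma Q4_sub (H : ℕ) : Q4 H ⊆ CvC 4 H := by
  classical
  unfold Q4
  exact filter_subset _ _

/-- **the average for `Z/4`** -/
theorem main_4 : ∃ C : ℝ, ∀ H : ℕ, ∑ c ∈ Q4 H, RS c ≤ C * ((Q4 H).card : ℝ) :=
  Pool.Agent.V7H95.CY.t_Z4 Pool.Agent.V7H30.CY.t_Q4 avg_3 Q4 Q4_sub low_Q4

end Pool.Agent.V7H45.CY
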