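import Pool.Agent.V7H45.G8.Grat

/-!
# The abstract bound without the explicit part

`P` is a set of indices without internal links. The sum over the tuples with some `d k ≠ 1`,
`k ∉ P`, does not see the indices of `P` alone.
-/

set_option autoImplicit false

namespace Pool.Agent.V7H45.CY

open Finset Pool.Agent.W262.RK Pool.Agent.W262.RK.AT Pool.Agent.W307.RT Pool.Agent.V7H45.G8

variable {ι : Type} [Fintype ι] [DecidableEq ι]

/-- one pattern -/
lemma pat_P {Δ : ι → ℤ} {w : ι → ℝ} {L : ι → ι → Bool} {κ : ι → ℤ} {c z A : ℕ}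
    {K C C1 Cs C0 C2 : ℝ} {E2 : ℕ} {P : Finset ι} (hBd : Bd Δ w κ c A z C)
    (hFB : FB Δ w (c + A) A z C1) (hCs : 0 ≤ Cs)
    (hFs : FS Δ w c z A Cs) (hCB : CB Δ κ ∅ z C0) (hC2 : 0 ≤ C2) (h2 : BW C2 E2)
    (hL : ∀ i, L i i = false) (hK0 : 0 ≤ K)
    (hP : ∀ i ∈ P, ∀ j ∈ P, L i j = false)
    (hU : ∀ U : Finset ι, (∀ i ∈ U, ∀ j ∈ U, L i j = L j i) →
      (∃ k ∈ U, k ∉ P) → ∑ i ∈ U, w i ≤ K)
    (hS : ∀ b, b ∉ P → ∑ i ∈ P.filter (fun i => L i b = L b i), w i < K) (ρ : ι → Fin 4)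
    (hρ : ∃ k, k ∉ P ∧ ρ k ≠ 0) :
    ∃ C' : ℝ, ∀ y, z < y →
      |∑ d ∈ Fintype.piFinset (fun b => cell z y
        (VV (6 * (Fintype.card ι + 4 * c + 2 * E2)) (Real.log y))
        (YY (6 * (Fintype.card ι + 4 * c + 2 * E2)) (Real.log y)) (ρ b)), G8.HH Δ w L κ c d| ≤
        C' * (Real.log y) ^ K := by
  classical
  set A' := 6 * (Fintype.card ι + 4 * c + 2 * E2) with hA'
  have htN : ∀ z y V Y, tN ∅ z y V Y ρ = fun b => cell z y V Y (ρ b) := by
    intro z y V Y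
    funext b
    unfold tN
    rw [if_neg (notMem_empty b)]
  by_cases hA : ∃ k, ρ k = 3
  · obtain ⟨k, hk2⟩ := hA
    exact tail_case hBd _ hK0 ρ (k := k) hk2
  push Not at hA
  by_cases hl : ∃ i j, ρ i = 2 ∧ ρ j = 2 ∧ L i j ≠ L j i
  · obtain ⟨i, j, hi2, hj2, hij⟩ := hl
    exact link_case hBd hC2 h2 hL le_rfl hK0 ρ hi2 hj2 hij
  by_cases hk : ∃ k, ρ k = 2 ∧ k ∉ P
  · obtain ⟨k, hk2, hk3⟩ := hk
    exact pat2 hBd hC2 h2 hL hK0 (k0 := k)
      (fun U hUu hkU => hU U hUu ⟨k, hkU, hk3⟩) ρ hk2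
  push Not at hk
  obtain ⟨b0, hb0, hb1⟩ := hρ
  have hb1' : ρ b0 = 1 := by
    have h2' : ρ b0 ≠ 2 := fun h => hb0 (hk b0 h)
    have h3 := hA b0
    revert hb1 h2' h3
    generalize ρ b0 = r
    revert r
    decide
  have hWQ : ∀ b ∈ WW ∅ ρ, b ∈ P := by
    intro b hb
    rw [mem_WW] at hb
    rcases hb with hb | hb
    · exact absurd hb (notMem_empty b)
    · exact hk b hb
  have hW : ∀ i ∈ WW ∅ ρ, ∀ j ∈ WW ∅ ρ, L i j = false := fun i hi j hj =>
    hP i (hWQ i hi) j (hWQ j hj)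
  have hz2 := hBd.z2
  have hM : 0 ≤ Real.log (Fintype.card ι) := Real.log_natCast_nonneg _
  obtain ⟨C', hC'0, hC'⟩ := main_est (κ := κ) hFB hCs hFs ∅ ρ (fun b _ => hA b) hW A'
    (C0 := C0 + 2 * Real.log (Fintype.card ι)) (by have := hCB.c0; linarith)
    (univ.filter (fun i => L i b0 = L b0 i))
  have hlt : ∑ i ∈ (WW ∅ ρ).filter (fun i => i ∈ univ.filter (fun i => L i b0 = L b0 i)), w i
      < K := by
    refine lt_of_le_of_lt ?_ (hS b0 hb0)
    apply sum_le_sum_of_subset_of_nonneg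
    · intro i hi
      rw [mem_filter] at hi ⊢
      exact ⟨hWQ i hi.1, (mem_filter.1 hi.2).2⟩
    · intro i _ _
      exact (hBd.w0 i).le
  apply G8.fin_lt hz2 A' (2 * Fintype.card ι) hlt hC'0
    (fun y b => cell z y (VV A' (Real.log y)) (YY A' (Real.log y)) (ρ b))
  intro y hy
  have := hC' y hy (Real.log (VV A' (Real.log y))) (Or.inl rfl)
    (CH2 hCB hy (three_le_VV _ _) (fun b _ => hA b) (notMem_empty b0) hb1')
  rw [htN] at this
  exact this

/-- the sum over the tuples with a variable outside `P`, as a sum over patterns -/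
lemma total_P (Δ : ι → ℤ) (w : ι → ℝ) (L : ι → ι → Bool) (κ : ι → ℤ) (c z y V Y : ℕ)
    (P : Finset ι) :
    ∑ d ∈ (Tup ι z y).filter (fun d => ∃ k, k ∉ P ∧ d k ≠ 1),
        (∏ i, gr (Δ i) (w i) c (d i)) * Sym L κ d =
      ∑ ρ ∈ univ.filter (fun ρ : ι → Fin 4 => ∃ k, k ∉ P ∧ ρ k ≠ 0),
        ∑ d ∈ Fintype.piFinset (fun b => cell z y V Y (ρ b)), G8.HH Δ w L κ c d := by
  classical
  have e1 : ∑ d ∈ (Tup ι z y).filter (fun d => ∃ k, k ∉ P ∧ d k ≠ 1),
      (∏ i, gr (Δ i) (w i) c (d i)) * Sym L κ d =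
      ∑ d ∈ (Fintype.piFinset (fun _ : ι => (PP z y).divisors)).filter
        (fun d => ∃ k, k ∉ P ∧ d k ≠ 1), G8.HH Δ w L κ c d := by
    unfold Tup G8.HH
    rw [filter_filter, sum_filter, sum_filter]
    apply sum_congr rfl
    intro d _
    by_cases h1 : ∀ i j, i ≠ j → (d i).Coprime (d j)
    · by_cases h2 : ∃ k, k ∉ P ∧ d k ≠ 1
      · rw [if_pos ⟨h1, h2⟩, if_pos h2, if_pos h1]
      · rw [if_neg (fun h => h2 h.2), if_neg h2]
    · rw [if_neg (fun h => h1 h.1), if_neg h1]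
      split_ifs <;> rfl
  rw [e1, ← sum_fiberwise_of_maps_to
    (s := (Fintype.piFinset (fun _ : ι => (PP z y).divisors)).filter
        (fun d => ∃ k, k ∉ P ∧ d k ≠ 1))
    (t := univ.filter (fun ρ : ι → Fin 4 => ∃ k, k ∉ P ∧ ρ k ≠ 0))
    (g := fun d k => cl V Y (d k))]
  · apply sum_congr rfl
    intro ρ hρ
    obtain ⟨k0, hk0, hk1⟩ := (mem_filter.1 hρ).2
    apply sum_congr _ (fun _ _ => rfl)
    ext d
    simp only [mem_filter, Fintype.mem_piFinset]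
    constructor
    · rintro ⟨⟨h1, _⟩, h2⟩ k
      exact mem_filter.2 ⟨h1 k, congrFun h2 k⟩
    · intro h
      refine ⟨⟨fun k => cell_sub _ _ _ _ _ (h k), k0, hk0, ?_⟩,
        funext fun k => (mem_filter.1 (h k)).2⟩
      intro h1
      have := (mem_filter.1 (h k0)).2
      rw [h1] at this
      apply hk1
      rw [← this]
      unfold cl
      rw [if_pos le_rfl]
  · intro d hd
    rw [mem_filter] at hd ⊢
    obtain ⟨h1, k, hk, hk1⟩ := hd
    refine ⟨mem_univ _, k, hk, ?_⟩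
    intro h0
    have hm : d k ∈ cell z y V Y 0 := mem_filter.2 ⟨Fintype.mem_piFinset.1 h1 k, h0⟩
    exact hk1 (cell_zero hm)

/-- **The abstract bound without the explicit part** -/
theorem at2_of (hb : BLW) (hub : UB) (Δ : ι → ℤ)
    (w : ι → ℝ) (L : ι → ι → Bool) (κ : ι → ℤ) (c : ℕ) (K : ℝ) (P : Finset ι)
    (hΔ : ∀ i, Gdc (Δ i))
    (hw : ∀ i, 0 < w i ∧ w i ≤ 1 / 2) (hL : ∀ i, L i i = false) (hκ : ∀ i, κ i ≠ 0)
    (hK0 : 0 ≤ K) (hP : ∀ i ∈ P, ∀ j ∈ P, L i j = false)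
    (hU : ∀ U : Finset ι, (∀ i ∈ U, ∀ j ∈ U, L i j = L j i) → (∃ k ∈ U, k ∉ P) →
      ∑ i ∈ U, w i ≤ K)
    (hS : ∀ b, b ∉ P → ∑ i ∈ P.filter (fun i => L i b = L b i), w i < K) :
    ∃ z0 : ℕ, ∀ z, z0 ≤ z → ∃ C : ℝ, ∀ y, z < y →
      |∑ d ∈ (Tup ι z y).filter (fun d => ∃ k, k ∉ P ∧ d k ≠ 1),
        (∏ i, gr (Δ i) (w i) c (d i)) * Sym L κ d| ≤ C * (Real.log y) ^ K := by
  classical
  obtain ⟨C2, E2, h2⟩ := hb
  obtain ⟨zS, A, hA2, hFS⟩ := fsr ι Δ w c hw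
  obtain ⟨CA, hCA0, hCA⟩ := hA_le_log (2 * c)
  refine ⟨zS + 2 * c + 2 * (c + A) + 4 + ∑ i, (κ i).natAbs + ∑ i, (κ i * Δ i).natAbs,
    fun z hz => ?_⟩
  have hzκ : ∀ i, (κ i).natAbs ≤ z := fun i => by
    have := single_le_sum (f := fun i => (κ i).natAbs) (fun _ _ => Nat.zero_le _) (mem_univ i)
    omega
  have hzκ2 : ∀ i, 2 * c + 2 + (κ i).natAbs + (κ i * Δ i).natAbs ≤ z := fun i => by
    have h1 := single_le_sum (f := fun i => (κ i).natAbs) (fun _ _ => Nat.zero_le _) (mem_univ i)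
    have h2 := single_le_sum (f := fun i => (κ i * Δ i).natAbs) (fun _ _ => Nat.zero_le _)
      (mem_univ i)
    omega
  have hz2 : 2 ≤ z := by omega
  choose CE hCE using fun i => epr hub (w i) c A (κ i) (Δ i) (hw i).1 (hw i).2 (hκ i) hA2 z
    (hzκ2 i)
  choose CF hCF1 hCF2 hCF3 using fun i => fullr (Δ i) (hΔ i) (w i) c A (hw i).1 (hw i).2 z
    (by omega)
  choose CG hCG1 hCG2 hCG3 using fun i => fullr (Δ i) (hΔ i) (w i) (c + A) A (hw i).1 (hw i).2 z
    (by omega)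
  choose CU hCU0 hCU using fun i => ubr hub (κ i) (Δ i) z (hκ i) hz2 (hzκ i)
    (by have := hzκ2 i; omega)
  choose CM hCM0 hCM using fun i => mer_gr (hΔ i) hz2
  obtain ⟨Cs, hCs1, hFs⟩ := hFS z (by omega)
  set C : ℝ := 1 + CA + ∑ i, (|CE i| + |CF i| + |CG i| + |CU i| + |CM i|) with hC
  have hCi : ∀ i, |CE i| + |CF i| + |CG i| + |CU i| + |CM i| ≤ C := by
    intro i
    have h1 : |CE i| + |CF i| + |CG i| + |CU i| + |CM i| ≤
        ∑ i, (|CE i| + |CF i| + |CG i| + |CU i| + |CM i|) :=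
      single_le_sum (f := fun i => |CE i| + |CF i| + |CG i| + |CU i| + |CM i|)
        (fun j _ => by positivity) (mem_univ i)
    linarith
  have hCE' : ∀ i, CE i ≤ C := fun i => by
    linarith [hCi i, le_abs_self (CE i), abs_nonneg (CF i), abs_nonneg (CG i), abs_nonneg (CU i),
      abs_nonneg (CM i)]
  have hCF' : ∀ i, CF i ≤ C := fun i => by
    linarith [hCi i, le_abs_self (CF i), abs_nonneg (CE i), abs_nonneg (CG i), abs_nonneg (CU i),
      abs_nonneg (CM i)]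
  have hCG' : ∀ i, CG i ≤ C := fun i => by
    linarith [hCi i, le_abs_self (CG i), abs_nonneg (CE i), abs_nonneg (CF i), abs_nonneg (CU i),
      abs_nonneg (CM i)]
  have hCU' : ∀ i, CU i ≤ C := fun i => by
    linarith [hCi i, le_abs_self (CU i), abs_nonneg (CE i), abs_nonneg (CG i), abs_nonneg (CF i),
      abs_nonneg (CM i)]
  have hCM' : ∀ i, CM i ≤ C := fun i => by
    linarith [hCi i, le_abs_self (CM i), abs_nonneg (CE i), abs_nonneg (CG i), abs_nonneg (CU i),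
      abs_nonneg (CF i)]
  have hsum0 : 0 ≤ ∑ i, (|CE i| + |CF i| + |CG i| + |CU i| + |CM i|) :=
    sum_nonneg fun i _ => by positivity
  have hC1 : 1 ≤ C := by
    rw [hC]
    linarith
  have hCA' : CA ≤ C := by
    rw [hC]
    linarith
  have hBd : Bd Δ w κ c A z C :=
    { w0 := fun i => (hw i).1
      w1 := fun i => (hw i).2
      z2 := hz2
      zc := by omega
      C1 := hC1
      F1 := fun i y hy => (hCF1 i y hy).trans (mul_le_mul_of_nonneg_right (hCF' i)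
        (Real.rpow_nonneg (Real.log_natCast_nonneg y) _))
      F2 := fun i y V hy hV => (hCF2 i y V hy hV).trans (mul_le_mul_of_nonneg_right (hCF' i)
        (Real.rpow_nonneg (Real.log_natCast_nonneg V) _))
      F3 := fun i y Y hy hY => (hCF3 i y Y hy hY).trans (by
        apply mul_le_mul_of_nonneg_right _ (by positivity)
        exact mul_le_mul_of_nonneg_right (hCF' i) (Real.exp_pos _).le)
      G := fun i y m hy hm => by
        refine (gr_le_hA_div (hw i).1.le (hw i).2 (by omega) hm).trans ?_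
        rw [div_eq_mul_one_div]
        apply mul_le_mul_of_nonneg_right _ (by positivity)
        refine (hCA z y m (by omega) hm).trans ?_
        exact mul_le_mul_of_nonneg_right hCA' (pow_nonneg (Real.log_natCast_nonneg y) _)
      E := fun i y R r e hy hR hr hs hp => (hCE i y R r e hy hR hr hs hp).trans (by
        apply mul_le_mul_of_nonneg_right _ (hA_nonneg _ _)
        exact mul_le_mul_of_nonneg_right (hCE' i) (Real.log_natCast_nonneg r)) }
  have hFB : FB Δ w (c + A) A z C :=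
    { w0 := fun i => (hw i).1
      w1 := fun i => (hw i).2
      z2 := hz2
      zc := by omega
      C1 := hC1
      F2 := fun i y V hy hV => (hCG2 i y V hy hV).trans (mul_le_mul_of_nonneg_right (hCG' i)
        (Real.rpow_nonneg (Real.log_natCast_nonneg V) _))
      F3 := fun i y Y hy hY => (hCG3 i y Y hy hY).trans (by
        apply mul_le_mul_of_nonneg_right _ (by positivity)
        exact mul_le_mul_of_nonneg_right (hCG' i) (Real.exp_pos _).le) }
  have hCB : CB Δ κ ∅ z C :=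
    { z2 := hz2
      c0 := by linarith
      M := fun i y hy => (hCM i y hy).trans (by
        have := hCM' i
        linarith)
      X := fun n hn => absurd hn (notMem_empty n)
      U := fun i y r e hy hr hs hp => (hCU i y r e hy hr hs hp).trans (by
        have := hCU' i
        linarith)
      K := fun n hn => absurd hn (notMem_empty n) }
  have h2' : AT.BW |C2| E2 := fun V Y hV hVY a b ha hb ha' hb' =>
    (h2 V Y hV hVY a b ha hb ha' hb').trans (by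
      apply mul_le_mul_of_nonneg_right _ (by positivity)
      exact mul_le_mul_of_nonneg_right (le_abs_self C2)
        (pow_nonneg (Real.log_natCast_nonneg Y) _))
  have hpat : ∀ ρ : ι → Fin 4, ∃ C' : ℝ, (∃ k, k ∉ P ∧ ρ k ≠ 0) → ∀ y, z < y →
      |∑ d ∈ Fintype.piFinset (fun b => cell z y
        (VV (6 * (Fintype.card ι + 4 * c + 2 * E2)) (Real.log y))
        (YY (6 * (Fintype.card ι + 4 * c + 2 * E2)) (Real.log y)) (ρ b)), G8.HH Δ w L κ c d| ≤
        C' * (Real.log y) ^ K := by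
    intro ρ
    by_cases hρ : ∃ k, k ∉ P ∧ ρ k ≠ 0
    · obtain ⟨C', hC'⟩ := pat_P hBd hFB (zero_le_one.trans hCs1) hFs hCB
        (abs_nonneg C2) h2' hL hK0 hP hU hS ρ hρ
      exact ⟨C', fun _ => hC'⟩
    · exact ⟨0, fun h => absurd h hρ⟩
  choose C' hC' using hpat
  refine ⟨∑ ρ ∈ univ.filter (fun ρ : ι → Fin 4 => ∃ k, k ∉ P ∧ ρ k ≠ 0), C' ρ, fun y hy => ?_⟩
  rw [total_P Δ w L κ c z y (AT.VV (6 * (Fintype.card ι + 4 * c + 2 * E2)) (Real.log y))
    (AT.YY (6 * (Fintype.card ι + 4 * c + 2 * E2)) (Real.log y)) P, sum_mul]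
  exact (abs_sum_le_sum_abs _ _).trans
    (sum_le_sum fun ρ hρ => hC' ρ (mem_filter.1 hρ).2 y hy)

/-- the inputs of the start library -/
theorem at2 (ι : Type) [Fintype ι] [DecidableEq ι] (Δ : ι → ℤ)
    (w : ι → ℝ) (L : ι → ι → Bool) (κ : ι → ℤ) (c : ℕ) (K : ℝ) (P : Finset ι)
    (hΔ : ∀ i, Gdc (Δ i))
    (hw : ∀ i, 0 < w i ∧ w i ≤ 1 / 2) (hL : ∀ i, L i i = false) (hκ : ∀ i, κ i ≠ 0)
    (hK0 : 0 ≤ K) (hP : ∀ i ∈ P, ∀ j ∈ P, L i j = false)
    (hU : ∀ U : Finset ι, (∀ i ∈ U, ∀ j ∈ U, L i j = L j i) → (∃ k ∈ U, k ∉ P) →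
      ∑ i ∈ U, w i ≤ K)
    (hS : ∀ b, b ∉ P → ∑ i ∈ P.filter (fun i => L i b = L b i), w i < K) :
    ∃ z0 : ℕ, ∀ z, z0 ≤ z → ∃ C : ℝ, ∀ y, z < y →
      |∑ d ∈ (Tup ι z y).filter (fun d => ∃ k, k ∉ P ∧ d k ≠ 1),
        (∏ i, gr (Δ i) (w i) c (d i)) * Sym L κ d| ≤ C * (Real.log y) ^ K :=
  at2_of (Pool.Agent.W655.RK.blw_of (_root_.W37.RK.bl_of Pool.Agent.W505.RK.ls))
    Pool.Agent.W586.RK.UB.ub Δ w L κ c K P hΔ hw hL hκ hK0 hP hU hS

end Pool.Agent.V7H45.CY
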