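import Pool.Agent.V7H45.CY.Spec2
import Pool.Agent.V7H45.CY.SumF
import Pool.Agent.V7H45.NS
import Pool.Agent.V7H45.G8.NB8
import Pool.Agent.V7H45.G8.Avg8

/-! The average over coprime pairs for the families `Z/8` and `Z/12`. -/

set_option autoImplicit false
set_option maxHeartbeats 400000

namespace Pool.Agent.V7H45.CY

open Finset Pool.Agent.W262.RK Pool.Agent.W307.RT Pool.Agent.V7H45.G8 Pool.Agent.V7H45.BF

/-- the sum of a quadratic character that is not trivial -/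
lemma gdc_ns (D : ℤ) (hD : D ≠ 0) (hns : ¬ IsSquare D) : Gdc D := by
  intro z hz
  obtain ⟨C, hC⟩ := Pool.Agent.V7H45.NS.nonsq_bound D hD hns (max z D.natAbs) (le_max_right _ _)
    (le_trans hz (le_max_left _ _))
  exact ⟨_, Pool.Agent.V7H45.NS.PS_shift (fun p => Jr D p) (fun p => abs_Jr_le D p) (max z D.natAbs) z C hC⟩

lemma gdc3 : Gdc 3 := gdc_ns 3 (by norm_num) (by
  rintro ⟨r, hr⟩
  have h1 : r ≤ 1 := by nlinarith
  have h2 : -1 ≤ r := by nlinarith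
  interval_cases r <;> omega)

lemma gdcn3 : Gdc (-3) := gdc_ns (-3) (by norm_num) (by
  rintro ⟨r, hr⟩
  nlinarith [mul_self_nonneg r])

lemma gdc_of {D : ℤ} (h : D = 0 ∨ D = 2 ∨ D = -1 ∨ D = 3 ∨ D = -3) : Gdc D := by
  rcases h with rfl | rfl | rfl | rfl | rfl
  · exact gdc0
  · exact gdc2
  · exact gdc1
  · exact gdc3
  · exact gdcn3

variable {n : ℕ}

/-- the product of the numbers of roots -/
noncomputable def rhoF (D : Fin n → ℤ) (s : Fin n → ℕ) : ℝ :=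
  ∏ j, ∏ p ∈ (s j).primeFactors, (1 + Jr (D j) p)

lemma rhoF_nonneg (D : Fin n → ℤ) (s : Fin n → ℕ) : 0 ≤ rhoF D s :=
  prod_nonneg fun _ _ => prod_nonneg fun _ _ => one_add_Jr_nonneg _ _

lemma rhoF_gw (D : Fin n → ℤ) (c : ℕ) (s : Fin n → ℕ) :
    rhoF D s * ∏ j, gw 1 c (s j) = ∏ j, gr (D j) 1 c (s j) := by
  unfold rhoF
  rw [← prod_mul_distrib]
  apply prod_congr rfl
  intro j _
  unfold gw gr
  rw [← prod_mul_distrib]
  apply prod_congr rfl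
  intro p _
  ring

lemma rhoF_mul (D : Fin n → ℤ) {z y : ℕ} {s e : Fin n → ℕ}
    (h : (fun j => s j * e j) ∈ Tup (Fin n) z y) :
    rhoF D (fun j => s j * e j) ≤ 2 ^ (∑ j, (e j).primeFactors.card) * rhoF D s := by
  unfold rhoF
  rw [← prod_pow_eq_pow_sum, ← prod_mul_distrib]
  apply prod_le_prod
  · intro j _
    exact prod_nonneg fun p _ => one_add_Jr_nonneg _ _
  · intro j _
    have h1 : s j * e j ∈ (PP z y).divisors := by
      have h2 := (mem_Tup'.1 h).1 j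
      exact Nat.mem_divisors.2 ⟨h2, PP_ne_zero z y⟩
    have h2 : (s j).Coprime (e j) := Nat.coprime_of_squarefree_mul (dv_squarefree h1)
    rw [Nat.Coprime.primeFactors_mul h2, prod_union h2.disjoint_primeFactors, mul_comm]
    apply mul_le_mul_of_nonneg_right
    · calc ∏ p ∈ (e j).primeFactors, (1 + Jr (D j) p) ≤ ∏ _p ∈ (e j).primeFactors, (2 : ℝ) :=
            prod_le_prod (fun p _ => one_add_Jr_nonneg _ _) fun p _ => one_add_Jr_le _ _
        _ = 2 ^ (e j).primeFactors.card := by rw [prod_const]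
    · exact prod_nonneg fun p _ => one_add_Jr_nonneg _ _

/-- the number of the prime factors of `u` -/
lemma card_uF {y Y X k : ℕ} {u : Fin n → ℕ} (hu : u ∈ Tup (Fin n) y Y)
    (hX : (∏ j, u j) ^ 8 ≤ X) (hk : X < (y + 1) ^ k) : ∑ j, (u j).primeFactors.card ≤ k := by
  have hd : ∀ j, u j ∈ (PP y Y).divisors := fun j =>
    Nat.mem_divisors.2 ⟨(mem_Tup'.1 hu).1 j, PP_ne_zero y Y⟩
  have h1 : (y + 1) ^ (∑ j, (u j).primeFactors.card) ≤ ∏ j, u j := by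
    rw [← prod_pow_eq_pow_sum]
    apply prod_le_prod'
    intro j _
    have h2 : (y + 1) ^ (u j).primeFactors.card ≤ ∏ q ∈ (u j).primeFactors, q :=
      Finset.pow_card_le_prod _ _ _ (fun q hq => by
        have := (dv_prime (hd j) (Nat.prime_of_mem_primeFactors hq)
          (Nat.dvd_of_mem_primeFactors hq)).1
        omega)
    rwa [Nat.prod_primeFactors_of_squarefree (dv_squarefree (hd j))] at h2
  have h3 : 1 ≤ ∏ j, u j := Nat.one_le_iff_ne_zero.2 (prod_ne_zero_iff.2 fun j _ =>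
    dv_ne_zero (hd j))
  have h4 : (y + 1) ^ (∑ j, (u j).primeFactors.card) < (y + 1) ^ k :=
    calc (y + 1) ^ (∑ j, (u j).primeFactors.card) ≤ ∏ j, u j := h1
      _ ≤ (∏ j, u j) ^ 8 := Nat.le_self_pow (by norm_num) _
      _ ≤ X := hX
      _ < _ := hk
  by_contra hcon
  push Not at hcon
  exact absurd (Nat.pow_le_pow_right (by omega : 0 < y + 1) hcon.le) (by omega)

lemma ps_dvd (δ : ℤ) (m : ℕ) : ps δ m ∣ m := by
  unfold ps
  exact (prod_dvd_prod_of_subset _ _ _ (filter_subset _ _)).trans (Nat.prod_primeFactors_dvd m)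

lemma ps_mul {a b : ℕ} (δ : ℤ) (h : a.Coprime b) : ps δ (a * b) = ps δ a * ps δ b := by
  unfold ps
  rw [Nat.Coprime.primeFactors_mul h, filter_union, prod_union]
  exact disjoint_filter_filter h.disjoint_primeFactors

lemma pos_dvd (δ : ℤ) (b0 : Fin n) (s : Fin n → ℕ) (j : Fin n) : pos δ b0 s j ∣ s j := by
  unfold pos
  split_ifs
  · exact ps_dvd δ (s j)
  · exact dvd_rfl

lemma pos_mul (δ : ℤ) (b0 : Fin n) {z y : ℕ} {s e : Fin n → ℕ}
    (h : (fun j => s j * e j) ∈ Tup (Fin n) z y) :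
    pos δ b0 (fun j => s j * e j) = fun j => pos δ b0 s j * pos δ b0 e j := by
  funext j
  have h1 : s j * e j ∈ (PP z y).divisors := by
    have h2 := (mem_Tup'.1 h).1 j
    exact Nat.mem_divisors.2 ⟨h2, PP_ne_zero z y⟩
  have h2 : (s j).Coprime (e j) := Nat.coprime_of_squarefree_mul (dv_squarefree h1)
  unfold pos
  split_ifs
  · exact ps_mul δ h2
  · rfl

/-- `(4 ^ m x)^(1/8) ≤ 4 ^ m x^(1/8)` -/
lemma root_mul {B x : ℝ} (hB : B = 0 ∨ 1 ≤ B) (hx : 0 ≤ x) :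
    (B * x) ^ (1 / 8 : ℝ) ≤ B * x ^ (1 / 8 : ℝ) := by
  rcases hB with rfl | hB
  · rw [zero_mul, zero_mul, Real.zero_rpow (by norm_num)]
  · rw [Real.mul_rpow (by linarith) hx]
    apply mul_le_mul_of_nonneg_right _ (Real.rpow_nonneg hx _)
    have := Real.rpow_le_rpow_of_exponent_le hB (by norm_num : (1 / 8 : ℝ) ≤ 1)
    rwa [Real.rpow_one] at this

lemma R8_nonneg (M N : ℤ) : 0 ≤ R8 M N := by
  unfold R8
  positivity

lemma R8_le {M N : ℤ} {B g : ℕ}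
    (h : 2 ^ Module.finrank ℤ (EAB (-M) (-N)).toAffine.Point ≤ B * g) :
    R8 M N ≤ (B : ℝ) * (g : ℝ) ^ (1 / 8 : ℝ) := by
  have h1 : R8 M N = ((2 : ℝ) ^ Module.finrank ℤ (EAB (-M) (-N)).toAffine.Point) ^
      (1 / 8 : ℝ) := by
    unfold R8
    rw [← Real.rpow_natCast, ← Real.rpow_mul (by norm_num)]
    congr 1
    ring
  rw [h1]
  refine (Real.rpow_le_rpow (by positivity) (z := (1 / 8 : ℝ)) (?_ : (2 : ℝ) ^
    Module.finrank ℤ (EAB (-M) (-N)).toAffine.Point ≤ (B : ℝ) * g) (by norm_num)).trans ?_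
  · exact_mod_cast h
  · apply root_mul _ (Nat.cast_nonneg g)
    rcases Nat.eq_zero_or_pos B with h0 | h0
    · left; rw [h0]; norm_num
    · right; exact_mod_cast h0

/-- **the average over the coprime pairs** -/
theorem avgC {f : ℤ → ℤ → Fin n → ℤ} {cls : Fin n → Fin 4} {D κ : Fin n → ℤ} {b0 : Fin n}
    {δ : ℤ} {M N : ℤ → ℤ → ℤ} (hcls : ∀ j, cls j ≠ 3) (hκ : ∀ j, κ j ≠ 0)
    (hκ3 : ∀ j, (κ j).natAbs ≤ 3) (hcnt : CNTF f D) (hrank : RANKF f cls κ b0 δ M N)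
    (hsum : ∀ c : ℕ, ∃ z0 : ℕ, ∀ z, z0 ≤ z → ∃ C : ℝ, ∀ y, z < y →
      ∑ s ∈ Tup (Fin n) z y, (NB cls (fun j _ => κ j) (pos δ b0 s)) ^ (1 / 8 : ℝ) *
        ∏ j, gr (D j) 1 c (s j) ≤ C * (Real.log y) ^ n)
    (hnd : ∀ a b : ℤ, IsCoprime a b → ∀ p : ℕ, p.Prime → 3 < p → ∀ j l, j ≠ l →
      (p : ℤ) ∣ f a b j → ¬ (p : ℤ) ∣ f a b l)
    (hle : ∀ e : ℤ, (e = 1 ∨ e = -1) → ∀ (t : ℕ × ℕ) (X : ℕ), 16 ≤ X → t.1 ≤ X → t.2 ≤ X →
      ∀ j, (f (t.1 : ℤ) (e * (t.2 : ℤ) + 2 * (t.1 : ℤ)) j).natAbs ≤ X ^ 3) :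
    AVGC f M N := by
  classical
  intro e he
  obtain ⟨c, z1, hz1⟩ := hcnt e he
  obtain ⟨z2, E, hrk⟩ := hrank
  obtain ⟨z0, hz0⟩ := hsum c
  set z : ℕ := z0 + z1 + z2 + (2 * c + 2) + 3 with hz
  have hz3 : 3 ≤ z := by omega
  obtain ⟨C', hC'⟩ := hz0 z (by omega)
  obtain ⟨C, K, y0, hC0, hK1, hcn⟩ := hz1 z (by omega)
  set κ' : Fin n → Fin 3 → ℤ := fun j _ => κ j with hκdef
  have hsubb : SUBB := Pool.Agent.W125.RK2.subb_of Pool.Agent.W125.RK2.sub4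
    Pool.Agent.W342.RK2.xcl
  have hNB0 : ∀ s, 0 ≤ NB cls κ' s := fun s => NB_nn cls κ' s
  set Gf : (Fin n → ℕ) → ℝ := fun s => (NB cls κ' (pos δ b0 s)) ^ (1 / 8 : ℝ) with hGf
  have hGf0 : ∀ s, 0 ≤ Gf s := fun s => Real.rpow_nonneg (hNB0 _) _
  set T : ℕ → Finset (ℕ × ℕ) := fun X => (Icc 1 X ×ˢ Icc 1 X).filter (fun t : ℕ × ℕ =>
      t.1.Coprime t.2 ∧ ∀ j, f (t.1 : ℤ) (e * (t.2 : ℤ) + 2 * (t.1 : ℤ)) j ≠ 0) with hT
  have key := ant (J := Fin n) (Ω := ℕ × ℕ) (b := 16) (by norm_num) c T T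
    (fun t => f (t.1 : ℤ) (e * (t.2 : ℤ) + 2 * (t.1 : ℤ))) (fun X => (X : ℝ) ^ 2) z
    (fun s => Gf s * rhoF D s)
    (fun t => R8 (M (t.1 : ℤ) (e * (t.2 : ℤ) + 2 * (t.1 : ℤ)))
      (N (t.1 : ℤ) (e * (t.2 : ℤ) + 2 * (t.1 : ℤ))))
    (C * 4 ^ (z + 2)) C' ((E + 1 : ℕ) * 2) K (y0 + 16) (by omega) (fun X => Subset.refl _)
    (fun X Y hXY => ?_) (fun X hX => ?_)
    (fun X ω hω => ?_) (fun s => mul_nonneg (hGf0 s) (rhoF_nonneg D s)) (fun t => R8_nonneg _ _)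
    (by positivity) (by push_cast; have : (0 : ℝ) ≤ E := Nat.cast_nonneg E; linarith) hK1
    (fun y hy s e' hse => ?_) (fun y hy => ?_) ?_
  · exact key
  · intro t ht
    rw [hT, mem_filter, mem_product, mem_Icc, mem_Icc] at ht
    rw [hT, mem_filter, mem_product, mem_Icc, mem_Icc]
    exact ⟨⟨⟨ht.1.1.1, ht.1.1.2.trans hXY⟩, ⟨ht.1.2.1, ht.1.2.2.trans hXY⟩⟩, ht.2⟩
  · have : (1 : ℝ) ≤ X := by exact_mod_cast hX
    positivity
  · rw [hT, mem_filter] at hω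
    refine ⟨hω.2.2, fun p hp hzp j l hjl h => ?_⟩
    exact hnd _ _ (cop_F8 he hω.2.1) p hp (by omega) j l hjl h.1 h.2
  · have hps := pos_mul δ b0 hse
    have hse2 : (fun j => pos δ b0 s j * pos δ b0 e' j) ∈ Tup (Fin n) z y :=
      Tup_dvd hse fun j => mul_dvd_mul (pos_dvd δ b0 s j) (pos_dvd δ b0 e' j)
    have h1 := hsubb (Fin n) cls κ' z y (by omega) (fun j _ => hκ j)
      (fun j _ => (hκ3 j).trans hz3) (pos δ b0 s) (pos δ b0 e') hse2
    have h2 := rhoF_mul D hse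
    have h3 : Gf (fun j => s j * e' j) ≤ 4 ^ (∑ j, (e' j).primeFactors.card) * Gf s := by
      rw [hGf]
      simp only
      rw [hps]
      have h4 : NB cls κ' (fun j => pos δ b0 s j * pos δ b0 e' j) ≤
          4 ^ (∑ j, (e' j).primeFactors.card) * NB cls κ' (pos δ b0 s) := by
        refine h1.trans (mul_le_mul_of_nonneg_right ?_ (hNB0 _))
        apply pow_le_pow_right₀ (by norm_num)
        apply sum_le_sum
        intro j _
        apply card_le_card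
        apply Nat.primeFactors_mono (pos_dvd δ b0 e' j)
        have h5 := (mem_Tup'.1 hse).1 j
        intro h0
        rw [h0, mul_zero] at h5
        exact PP_ne_zero z y (zero_dvd_iff.1 h5)
      refine (Real.rpow_le_rpow (hNB0 _) h4 (by norm_num)).trans ?_
      exact root_mul (Or.inr (one_le_pow₀ (by norm_num))) (hNB0 _)
    calc Gf (fun j => s j * e' j) * rhoF D (fun j => s j * e' j)
        ≤ (4 ^ (∑ j, (e' j).primeFactors.card) * Gf s) *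
          (2 ^ (∑ j, (e' j).primeFactors.card) * rhoF D s) :=
          mul_le_mul h3 h2 (rhoF_nonneg D _) (mul_nonneg (by positivity) (hGf0 s))
      _ = 8 ^ (∑ j, (e' j).primeFactors.card) * (Gf s * rhoF D s) := by
          have : (8 : ℝ) = 4 * 2 := by norm_num
          rw [this, mul_pow]
          ring
      _ ≤ 16 ^ (∑ j, (e' j).primeFactors.card) * (Gf s * rhoF D s) := by
          apply mul_le_mul_of_nonneg_right _ (mul_nonneg (hGf0 s) (rhoF_nonneg D s))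
          exact pow_le_pow_left₀ (by norm_num) (by norm_num) _
  · rw [Fintype.card_fin]
    refine le_trans (le_of_eq ?_) (hC' y hy)
    apply sum_congr rfl
    intro s _
    rw [mul_assoc, rhoF_gw]
  intro X y Y k hy0 hzy hyK _ _ hk s hs v hv u hu h8 T' hT' hT2
  have hy00 : y0 ≤ y := by omega
  have hyX : y ≤ X := le_trans (Nat.le_self_pow (by omega) y) hyK
  have hX16 : 16 ≤ X := by omega
  have e1 : NB cls κ' (pos δ b0 s) = (NL (∏ j, pos δ b0 s j) (LLs cls κ' (pos δ b0 s) ∅) : ℝ) :=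
    Pool.Agent.W230.RT.nb_eq hcls κ' _
  set g : ℝ := Gf s with hg
  have hg0 : 0 ≤ g := hGf0 s
  have hE1 : ((E : ℕ) : ℝ) ^ k ≤ ((E + 1 : ℕ) : ℝ) ^ k :=
    pow_le_pow_left₀ (Nat.cast_nonneg E) (by push_cast; linarith) k
  have h1 : ∀ t ∈ T', R8 (M (t.1 : ℤ) (e * (t.2 : ℤ) + 2 * (t.1 : ℤ)))
      (N (t.1 : ℤ) (e * (t.2 : ℤ) + 2 * (t.1 : ℤ))) ≤
      4 ^ (z + 2) * ((E + 1 : ℕ) : ℝ) ^ k * 4 ^ (∑ j, (v j).primeFactors.card) * g := by
    intro t ht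
    have ht1 := hT' ht
    rw [hT, mem_filter, mem_product, mem_Icc, mem_Icc] at ht1
    obtain ⟨hts, htv, _⟩ := hT2 t ht
    have hr := hrk z y X k (by omega) _ _ (cop_F8 he ht1.2.1) ht1.2.2
      (fun j => hle e he t X hX16 ht1.1.1.2 ht1.1.2.2 j) (by omega) hk
    rw [hts, htv] at hr
    refine (R8_le hr).trans ?_
    rw [← e1]
    have : (NB cls κ' (pos δ b0 s)) ^ (1 / 8 : ℝ) = g := rfl
    rw [this]
    push_cast at hE1 ⊢
    gcongr
  set Q : ℝ := C * X ^ 2 * (∏ j, gr (D j) 1 c (s j)) *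
        (∏ j, 4 ^ (v j).primeFactors.card * (gw 1 c (v j) / v j)) *
        (∏ j, 2 ^ (u j).primeFactors.card * (1 / (u j : ℝ))) / (Real.log y) ^ n with hQ
  have h3 : (T'.card : ℝ) ≤ Q := by
    refine le_trans ?_ (hcn X y Y hy00 hzy hyK s hs v hv u hu h8)
    have h4 : T' ⊆ (Icc 1 X ×ˢ Icc 1 X).filter (fun t : ℕ × ℕ => t.1.Coprime t.2 ∧
        S1 z y (f (t.1 : ℤ) (e * (t.2 : ℤ) + 2 * (t.1 : ℤ))) = s ∧
        S2 z y (f (t.1 : ℤ) (e * (t.2 : ℤ) + 2 * (t.1 : ℤ))) = v ∧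
        ∀ j, (u j : ℤ) ∣ f (t.1 : ℤ) (e * (t.2 : ℤ) + 2 * (t.1 : ℤ)) j) := by
      intro t ht
      have ht1 := hT' ht
      rw [hT, mem_filter] at ht1
      rw [mem_filter]
      exact ⟨ht1.1, ht1.2.1, (hT2 t ht).1, (hT2 t ht).2.1, (hT2 t ht).2.2⟩
    exact_mod_cast card_le_card h4
  have hly : 0 < Real.log y := Real.log_pos (by exact_mod_cast (by omega : 1 < y))
  have hcz : c ≤ z := by omega
  have hgr0 : 0 ≤ ∏ j, gr (D j) 1 c (s j) := prod_nonneg fun j _ =>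
    gr_nonneg zero_le_one hcz (Nat.mem_divisors.2
      ⟨(mem_Tup'.1 hs).1 j, PP_ne_zero z y⟩)
  have hgv0 : ∀ j, 0 ≤ gw 1 c (v j) / v j := fun j => div_nonneg
    (gw_nonneg zero_le_one hcz (Nat.mem_divisors.2
      ⟨(mem_Tup'.1 hv).1 j, PP_ne_zero z y⟩)) (Nat.cast_nonneg _)
  have hu2 : ∑ j, (u j).primeFactors.card ≤ k := by
    apply card_uF hu _ hk
    refine le_trans (Nat.pow_le_pow_left ?_ 8) h8
    apply prod_le_prod'
    intro j _
    have hs0 : 0 < s j := Nat.pos_of_ne_zero (dv_ne_zero (Nat.mem_divisors.2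
      ⟨(mem_Tup'.1 hs).1 j, PP_ne_zero z y⟩))
    have hv0 : 0 < v j := Nat.pos_of_ne_zero (dv_ne_zero (Nat.mem_divisors.2
      ⟨(mem_Tup'.1 hv).1 j, PP_ne_zero z y⟩))
    exact Nat.le_mul_of_pos_left _ (Nat.mul_pos hs0 hv0)
  have hu0 : 0 ≤ ∏ j, 1 / (u j : ℝ) := prod_nonneg fun j _ => by positivity
  have hvprod : 0 ≤ ∏ j, (gw 1 c (v j) / v j) := prod_nonneg fun j _ => hgv0 j
  have hsumle : ∑ t ∈ T', R8 (M (t.1 : ℤ) (e * (t.2 : ℤ) + 2 * (t.1 : ℤ)))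
      (N (t.1 : ℤ) (e * (t.2 : ℤ) + 2 * (t.1 : ℤ))) ≤
      (T'.card : ℝ) *
          (4 ^ (z + 2) * ((E + 1 : ℕ) : ℝ) ^ k * 4 ^ (∑ j, (v j).primeFactors.card) * g) := by
    refine (sum_le_sum h1).trans (le_of_eq ?_)
    rw [sum_const, nsmul_eq_mul]
  refine hsumle.trans ?_
  have e2 : (∏ j, (16 : ℝ) ^ (v j).primeFactors.card * (gw 1 c (v j) / v j)) =
      4 ^ (∑ j, (v j).primeFactors.card) * (4 ^ (∑ j, (v j).primeFactors.card) *
        ∏ j, (gw 1 c (v j) / v j)) := by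
    rw [prod_mul_distrib, prod_pow_eq_pow_sum, ← mul_assoc, ← mul_pow]
    norm_num
  have e3 : Gf s * rhoF D s * ∏ j, gw 1 c (s j) = g * ∏ j, gr (D j) 1 c (s j) := by
    rw [mul_assoc, rhoF_gw]
  have e4 : (∏ j, (4 : ℝ) ^ (v j).primeFactors.card * (gw 1 c (v j) / v j)) =
      4 ^ (∑ j, (v j).primeFactors.card) * ∏ j, (gw 1 c (v j) / v j) := by
    rw [prod_mul_distrib, prod_pow_eq_pow_sum]
  have e5 : (∏ j, (2 : ℝ) ^ (u j).primeFactors.card * (1 / (u j : ℝ))) =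
      2 ^ (∑ j, (u j).primeFactors.card) * ∏ j, 1 / (u j : ℝ) := by
    rw [prod_mul_distrib, prod_pow_eq_pow_sum]
  rw [e2, e3, Fintype.card_fin, mul_pow]
  rw [hQ, e4, e5] at h3
  exact fin8 (V4 := (4 : ℝ) ^ (∑ j, (v j).primeFactors.card))
    (two := (2 : ℝ) ^ (∑ j, (u j).primeFactors.card)) hC0 (pow_nonneg (by norm_num) _)
    (pow_nonneg (Nat.cast_nonneg _) _) (sq_nonneg _) hgr0 (pow_nonneg (by norm_num) _)
    hvprod hu0 (pow_pos hly n) hg0 h3 (pow_le_pow_right₀ (by norm_num) hu2)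

end Pool.Agent.V7H45.CY
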