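import Pool.Agent.V7H45.CY.Avg

/-! The families `Z/8` and `Z/12`: elementary facts and the averages. -/

set_option autoImplicit false

namespace Pool.Agent.V7H45.CY

open Finset Pool.Agent.W262.RK Pool.Agent.W307.RT Pool.Agent.V7H45.G8

lemma nd_aux {p : ℕ} (hp : p.Prime) (hp3 : 3 < p) {a b x y : ℤ} (hab : IsCoprime a b)
    (hx : (p : ℤ) ∣ x) (hy : (p : ℤ) ∣ y) (u v u' v' c c' : ℤ) (hc : c ∣ 12) (hc' : c' ∣ 12)
    (h1 : u * x + v * y = c * a ^ 2) (h2 : u' * x + v' * y = c' * b ^ 2) : False := by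
  have hpp : Prime (p : ℤ) := Nat.prime_iff_prime_int.1 hp
  have h12 : ∀ c : ℤ, c ∣ 12 → ¬ (p : ℤ) ∣ c := by
    intro c hc h
    have h3 : (p : ℤ) ∣ 12 := h.trans hc
    have h4 : p ∣ 12 := by exact_mod_cast h3
    have h5 : p ∣ 2 * 2 * 3 := by simpa using h4
    rcases hp.dvd_mul.1 h5 with h | h
    · rcases hp.dvd_mul.1 h with h | h
      · have := Nat.le_of_dvd (by norm_num) h
        omega
      · have := Nat.le_of_dvd (by norm_num) h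
        omega
    · have := Nat.le_of_dvd (by norm_num) h
      omega
  have ha : (p : ℤ) ∣ a := by
    have h3 : (p : ℤ) ∣ c * a ^ 2 := by
      rw [← h1]
      exact dvd_add (Dvd.dvd.mul_left hx u) (Dvd.dvd.mul_left hy v)
    rcases hpp.dvd_or_dvd h3 with h | h
    · exact absurd h (h12 c hc)
    · exact hpp.dvd_of_dvd_pow h
  have hb : (p : ℤ) ∣ b := by
    have h3 : (p : ℤ) ∣ c' * b ^ 2 := by
      rw [← h2]
      exact dvd_add (Dvd.dvd.mul_left hx u') (Dvd.dvd.mul_left hy v')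
    rcases hpp.dvd_or_dvd h3 with h | h
    · exact absurd h (h12 c' hc')
    · exact hpp.dvd_of_dvd_pow h
  exact hpp.not_isUnit (hab.isUnit_of_dvd' ha hb)

lemma f5_nd_lt (a b : ℤ) (hab : IsCoprime a b) (p : ℕ) (hp : p.Prime) (hp3 : 3 < p) :
    ∀ j l : Fin 5, j < l → (p : ℤ) ∣ f5 a b j → ¬ (p : ℤ) ∣ f5 a b l := by
  intro j l hjl hx hy
  have key := fun (x y : ℤ) (hx : (p : ℤ) ∣ x) (hy : (p : ℤ) ∣ y) =>
    nd_aux hp hp3 (x := x) (y := y) hab hx hy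
  fin_cases j <;> fin_cases l <;> first | exact absurd hjl (by decide) | skip
  · exact key a (b - a) hx hy a 0 b b 1 1 (by decide) (by decide) (by ring) (by ring)
  · exact key a (b + a) hx hy a 0 (-b) b 1 1 (by decide) (by decide) (by ring) (by ring)
  · exact key a b hx hy a 0 0 b 1 1 (by decide) (by decide) (by ring) (by ring)
  · exact key a (2 * a ^ 2 - b ^ 2) hx hy a 0 (2 * a) (-1) 1 1 (by decide) (by decide) (by ring)
      (by ring)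
  · exact key (b - a) (b + a) hx hy (-a) a b b 2 2 (by decide) (by decide) (by ring) (by ring)
  · exact key (b - a) b hx hy (-a) a 0 b 1 1 (by decide) (by decide) (by ring) (by ring)
  · exact key (b - a) (2 * a ^ 2 - b ^ 2) hx hy (b + a) 1 (2 * (b + a)) 1 1 1 (by decide)
      (by decide) (by ring) (by ring)
  · exact key (b + a) b hx hy a (-a) 0 b 1 1 (by decide) (by decide) (by ring) (by ring)
  · exact key (b + a) (2 * a ^ 2 - b ^ 2) hx hy (b - a) 1 (2 * (b - a)) 1 1 1 (by decide)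
      (by decide) (by ring) (by ring)
  · exact key b (2 * a ^ 2 - b ^ 2) hx hy b 1 b 0 2 1 (by decide) (by decide) (by ring) (by ring)

lemma f7_nd_lt (a b : ℤ) (hab : IsCoprime a b) (p : ℕ) (hp : p.Prime) (hp3 : 3 < p) :
    ∀ j l : Fin 7, j < l → (p : ℤ) ∣ f7 a b j → ¬ (p : ℤ) ∣ f7 a b l := by
  intro j l hjl hx hy
  have key := fun (x y : ℤ) (hx : (p : ℤ) ∣ x) (hy : (p : ℤ) ∣ y) =>
    nd_aux hp hp3 (x := x) (y := y) hab hx hy
  fin_cases j <;> fin_cases l <;> first | exact absurd hjl (by decide) | skip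
  · exact key a b hx hy a 0 0 b 1 1 (by decide) (by decide) (by ring) (by ring)
  · exact key a (b - a) hx hy a 0 b b 1 1 (by decide) (by decide) (by ring) (by ring)
  · exact key a (b + a) hx hy a 0 (-b) b 1 1 (by decide) (by decide) (by ring) (by ring)
  · exact key a (b ^ 2 + 3 * a ^ 2) hx hy a 0 (-3 * a) 1 1 1 (by decide) (by decide) (by ring)
      (by ring)
  · exact key a (3 * a ^ 2 - b ^ 2) hx hy a 0 (3 * a) (-1) 1 1 (by decide) (by decide) (by ring)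
      (by ring)
  · exact key a (a ^ 2 + b ^ 2) hx hy a 0 (-a) 1 1 1 (by decide) (by decide) (by ring) (by ring)
  · exact key b (b - a) hx hy a (-a) b 0 1 1 (by decide) (by decide) (by ring) (by ring)
  · exact key b (b + a) hx hy (-a) a b 0 1 1 (by decide) (by decide) (by ring) (by ring)
  · exact key b (b ^ 2 + 3 * a ^ 2) hx hy (-b) 1 b 0 3 1 (by decide) (by decide) (by ring)
      (by ring)
  · exact key b (3 * a ^ 2 - b ^ 2) hx hy b 1 b 0 3 1 (by decide) (by decide) (by ring) (by ring)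
  · exact key b (a ^ 2 + b ^ 2) hx hy (-b) 1 b 0 1 1 (by decide) (by decide) (by ring) (by ring)
  · exact key (b - a) (b + a) hx hy (-a) a b b 2 2 (by decide) (by decide) (by ring) (by ring)
  · exact key (b - a) (b ^ 2 + 3 * a ^ 2) hx hy (-(b + a)) 1 (3 * (b + a)) 1 4 4 (by decide)
      (by decide) (by ring) (by ring)
  · exact key (b - a) (3 * a ^ 2 - b ^ 2) hx hy (b + a) 1 (3 * (b + a)) 1 2 2 (by decide)
      (by decide) (by ring) (by ring)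
  · exact key (b - a) (a ^ 2 + b ^ 2) hx hy (-(b + a)) 1 (b + a) 1 2 2 (by decide)
      (by decide) (by ring) (by ring)
  · exact key (b + a) (b ^ 2 + 3 * a ^ 2) hx hy (-(b - a)) 1 (3 * (b - a)) 1 4 4 (by decide)
      (by decide) (by ring) (by ring)
  · exact key (b + a) (3 * a ^ 2 - b ^ 2) hx hy (b - a) 1 (3 * (b - a)) 1 2 2 (by decide)
      (by decide) (by ring) (by ring)
  · exact key (b + a) (a ^ 2 + b ^ 2) hx hy (-(b - a)) 1 (b - a) 1 2 2 (by decide)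
      (by decide) (by ring) (by ring)
  · exact key (b ^ 2 + 3 * a ^ 2) (3 * a ^ 2 - b ^ 2) hx hy 1 1 1 (-1) 6 2 (by decide)
      (by decide) (by ring) (by ring)
  · exact key (b ^ 2 + 3 * a ^ 2) (a ^ 2 + b ^ 2) hx hy 1 (-1) (-1) 3 2 2 (by decide)
      (by decide) (by ring) (by ring)
  · exact key (3 * a ^ 2 - b ^ 2) (a ^ 2 + b ^ 2) hx hy 1 1 (-1) 3 4 4 (by decide)
      (by decide) (by ring) (by ring)

lemma f5_nd (a b : ℤ) (hab : IsCoprime a b) (p : ℕ) (hp : p.Prime) (hp3 : 3 < p) (j l : Fin 5)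
    (hjl : j ≠ l) (hx : (p : ℤ) ∣ f5 a b j) : ¬ (p : ℤ) ∣ f5 a b l := by
  rcases lt_or_gt_of_ne hjl with h | h
  · exact f5_nd_lt a b hab p hp hp3 j l h hx
  · exact fun hy => f5_nd_lt a b hab p hp hp3 l j h hy hx

lemma f7_nd (a b : ℤ) (hab : IsCoprime a b) (p : ℕ) (hp : p.Prime) (hp3 : 3 < p) (j l : Fin 7)
    (hjl : j ≠ l) (hx : (p : ℤ) ∣ f7 a b j) : ¬ (p : ℤ) ∣ f7 a b l := by
  rcases lt_or_gt_of_ne hjl with h | h
  · exact f7_nd_lt a b hab p hp hp3 j l h hx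
  · exact fun hy => f7_nd_lt a b hab p hp hp3 l j h hy hx

/-- the bounds of `a` and `b` -/
lemma ab_bounds {e : ℤ} (he : e = 1 ∨ e = -1) (t : ℕ × ℕ) (X : ℕ) (h1 : t.1 ≤ X) (h2 : t.2 ≤ X) :
    |(t.1 : ℤ)| ≤ X ∧ |e * (t.2 : ℤ) + 2 * (t.1 : ℤ)| ≤ 3 * X := by
  have h3 : (t.1 : ℤ) ≤ X := by exact_mod_cast h1
  have h4 : (t.2 : ℤ) ≤ X := by exact_mod_cast h2
  have h5 : (0 : ℤ) ≤ t.1 := Nat.cast_nonneg _
  have h6 : (0 : ℤ) ≤ t.2 := Nat.cast_nonneg _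
  constructor
  · rw [Nat.abs_cast]
    exact h3
  · rw [abs_le]
    rcases he with rfl | rfl
    · constructor <;> linarith
    · constructor <;> linarith

lemma le_of_16 {x : ℤ} {X : ℕ} (hX : 16 ≤ X) (h : |x| ≤ 16 * (X : ℤ) ^ 2) : x.natAbs ≤ X ^ 3 := by
  have hX3 : 16 * X ^ 2 ≤ X ^ 3 := by
    calc 16 * X ^ 2 ≤ X * X ^ 2 := Nat.mul_le_mul_right _ hX
      _ = X ^ 3 := by ring
  have h3 : ((x.natAbs : ℕ) : ℤ) ≤ ((X ^ 3 : ℕ) : ℤ) := by
    rw [Int.natCast_natAbs]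
    refine h.trans ?_
    exact_mod_cast hX3
  exact_mod_cast h3

lemma f5_le (e : ℤ) (he : e = 1 ∨ e = -1) (t : ℕ × ℕ) (X : ℕ) (hX : 16 ≤ X) (h1 : t.1 ≤ X)
    (h2 : t.2 ≤ X) (j : Fin 5) :
    (f5 (t.1 : ℤ) (e * (t.2 : ℤ) + 2 * (t.1 : ℤ)) j).natAbs ≤ X ^ 3 := by
  obtain ⟨ha1, hb1⟩ := ab_bounds he t X h1 h2
  set a : ℤ := (t.1 : ℤ) with ha
  set b : ℤ := e * (t.2 : ℤ) + 2 * (t.1 : ℤ) with hb
  apply le_of_16 hX
  have hX0 : (16 : ℤ) ≤ X := by exact_mod_cast hX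
  have hXZ : (X : ℤ) ≤ (X : ℤ) ^ 2 := by nlinarith
  obtain ⟨a2, a3⟩ := abs_le.1 ha1
  obtain ⟨b2, b3⟩ := abs_le.1 hb1
  have haa : a ^ 2 ≤ (X : ℤ) ^ 2 := by
    rw [← sq_abs a]
    exact pow_le_pow_left₀ (abs_nonneg _) ha1 2
  have hbb : b ^ 2 ≤ 9 * (X : ℤ) ^ 2 := by
    rw [← sq_abs b]
    calc |b| ^ 2 ≤ (3 * (X : ℤ)) ^ 2 := pow_le_pow_left₀ (abs_nonneg _) hb1 2
      _ = _ := by ring
  have haa0 := sq_nonneg a
  have hbb0 := sq_nonneg b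
  rw [abs_le]
  fin_cases j
  · show -(16 * (X : ℤ) ^ 2) ≤ a ∧ a ≤ 16 * (X : ℤ) ^ 2
    constructor <;> linarith
  · show -(16 * (X : ℤ) ^ 2) ≤ b - a ∧ b - a ≤ 16 * (X : ℤ) ^ 2
    constructor <;> linarith
  · show -(16 * (X : ℤ) ^ 2) ≤ b + a ∧ b + a ≤ 16 * (X : ℤ) ^ 2
    constructor <;> linarith
  · show -(16 * (X : ℤ) ^ 2) ≤ b ∧ b ≤ 16 * (X : ℤ) ^ 2
    constructor <;> linarith
  · show -(16 * (X : ℤ) ^ 2) ≤ 2 * a ^ 2 - b ^ 2 ∧ 2 * a ^ 2 - b ^ 2 ≤ 16 * (X : ℤ) ^ 2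
    constructor <;> linarith

lemma f7_le (e : ℤ) (he : e = 1 ∨ e = -1) (t : ℕ × ℕ) (X : ℕ) (hX : 16 ≤ X) (h1 : t.1 ≤ X)
    (h2 : t.2 ≤ X) (j : Fin 7) :
    (f7 (t.1 : ℤ) (e * (t.2 : ℤ) + 2 * (t.1 : ℤ)) j).natAbs ≤ X ^ 3 := by
  obtain ⟨ha1, hb1⟩ := ab_bounds he t X h1 h2
  set a : ℤ := (t.1 : ℤ) with ha
  set b : ℤ := e * (t.2 : ℤ) + 2 * (t.1 : ℤ) with hb
  apply le_of_16 hX
  have hX0 : (16 : ℤ) ≤ X := by exact_mod_cast hX
  have hXZ : (X : ℤ) ≤ (X : ℤ) ^ 2 := by nlinarith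
  obtain ⟨a2, a3⟩ := abs_le.1 ha1
  obtain ⟨b2, b3⟩ := abs_le.1 hb1
  have haa : a ^ 2 ≤ (X : ℤ) ^ 2 := by
    rw [← sq_abs a]
    exact pow_le_pow_left₀ (abs_nonneg _) ha1 2
  have hbb : b ^ 2 ≤ 9 * (X : ℤ) ^ 2 := by
    rw [← sq_abs b]
    calc |b| ^ 2 ≤ (3 * (X : ℤ)) ^ 2 := pow_le_pow_left₀ (abs_nonneg _) hb1 2
      _ = _ := by ring
  have haa0 := sq_nonneg a
  have hbb0 := sq_nonneg b
  rw [abs_le]
  fin_cases j
  · show -(16 * (X : ℤ) ^ 2) ≤ a ∧ a ≤ 16 * (X : ℤ) ^ 2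
    constructor <;> linarith
  · show -(16 * (X : ℤ) ^ 2) ≤ b ∧ b ≤ 16 * (X : ℤ) ^ 2
    constructor <;> linarith
  · show -(16 * (X : ℤ) ^ 2) ≤ b - a ∧ b - a ≤ 16 * (X : ℤ) ^ 2
    constructor <;> linarith
  · show -(16 * (X : ℤ) ^ 2) ≤ b + a ∧ b + a ≤ 16 * (X : ℤ) ^ 2
    constructor <;> linarith
  · show -(16 * (X : ℤ) ^ 2) ≤ b ^ 2 + 3 * a ^ 2 ∧ b ^ 2 + 3 * a ^ 2 ≤ 16 * (X : ℤ) ^ 2
    constructor <;> linarith
  · show -(16 * (X : ℤ) ^ 2) ≤ 3 * a ^ 2 - b ^ 2 ∧ 3 * a ^ 2 - b ^ 2 ≤ 16 * (X : ℤ) ^ 2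
    constructor <;> linarith
  · show -(16 * (X : ℤ) ^ 2) ≤ a ^ 2 + b ^ 2 ∧ a ^ 2 + b ^ 2 ≤ 16 * (X : ℤ) ^ 2
    constructor <;> linarith

lemma f5_ne (a b : ℤ) (h1 : Mc8 a b ≠ 0) (h2 : Nc8 a b ≠ 0) (h3 : Mc8 a b ≠ Nc8 a b)
    (j : Fin 5) : f5 a b j ≠ 0 := by
  unfold Mc8 at h1 h3
  unfold Nc8 at h2 h3
  fin_cases j
  · show a ≠ 0
    rintro rfl
    exact h1 (by ring)
  · show b - a ≠ 0
    intro h
    have hb : b = a := by linarith
    subst hb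
    exact h2 (by ring)
  · show b + a ≠ 0
    intro h
    have hb : b = -a := by linarith
    subst hb
    exact h2 (by ring)
  · show b ≠ 0
    rintro rfl
    exact h3 (by ring)
  · show 2 * a ^ 2 - b ^ 2 ≠ 0
    intro h
    apply h3
    linear_combination (b ^ 2) * h

lemma f7_ne (a b : ℤ) (h1 : Mc12 a b ≠ 0) (h2 : Nc12 a b ≠ 0) (h3 : Mc12 a b ≠ Nc12 a b)
    (j : Fin 7) : f7 a b j ≠ 0 := by
  unfold Mc12 at h1 h3
  unfold Nc12 at h2 h3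
  fin_cases j
  · show a ≠ 0
    rintro rfl
    exact h1 (by ring)
  · show b ≠ 0
    rintro rfl
    exact h1 (by ring)
  · show b - a ≠ 0
    intro h
    have hb : b = a := by linarith
    subst hb
    exact h2 (by ring)
  · show b + a ≠ 0
    intro h
    have hb : b = -a := by linarith
    subst hb
    exact h2 (by ring)
  · show b ^ 2 + 3 * a ^ 2 ≠ 0
    intro h
    apply h2
    rw [h, mul_zero]
  · show 3 * a ^ 2 - b ^ 2 ≠ 0
    intro h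
    apply h3
    linear_combination ((a ^ 2 + b ^ 2) ^ 3) * h
  · show a ^ 2 + b ^ 2 ≠ 0
    intro h
    apply h3
    linear_combination ((3 * a ^ 2 - b ^ 2) * (a ^ 2 + b ^ 2) ^ 2) * h

lemma Mc8_neg (a b : ℤ) : Mc8 (-a) (-b) = Mc8 a b := by unfold Mc8; ring
lemma Nc8_neg (a b : ℤ) : Nc8 (-a) (-b) = Nc8 a b := by unfold Nc8; ring
lemma Mc12_neg (a b : ℤ) : Mc12 (-a) (-b) = Mc12 a b := by unfold Mc12; ring
lemma Nc12_neg (a b : ℤ) : Nc12 (-a) (-b) = Nc12 a b := by unfold Nc12; ring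

/-- the average for `Z/8` -/
theorem avg5 (hX : S_X) (hG : S_G) (hT : S_T) (hD : S_D) (hc : S_C5) (hr : S_R5) :
    AVGC f5 Mc8 Nc8 := by
  refine avgC (cls := c5) (D := D5) (κ := κ5) (b0 := 3) (δ := -1) (by decide) (by decide)
    (by decide) hc hr (fun c => ?_) f5_nd f5_le
  refine sumF hX hG hT hD (K4 := 18) (by decide) (by decide) (by decide) (Or.inl rfl) (by decide)
    (by decide) (fun j => gdc_of (by revert j; decide)) cmb5 (by norm_num) hW5 hE5 c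

/-- the average for `Z/12` -/
theorem avg7 (hX : S_X) (hG : S_G) (hT : S_T) (hD : S_D) (hc : S_C12) (hr : S_R12) :
    AVGC f7 Mc12 Nc12 := by
  refine avgC (cls := c7) (D := D7) (κ := κ7) (b0 := 1) (δ := -3) (by decide) (by decide)
    (by decide) hc hr (fun c => ?_) f7_nd f7_le
  refine sumF hX hG hT hD (K4 := 26) (by decide) (by decide) (by decide) (Or.inr rfl) (by decide)
    (by decide) (fun j => gdc_of (by revert j; decide)) cmb7 (by norm_num) hW7 hE7 c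

end Pool.Agent.V7H45.CY
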