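import Pool.Agent.V7H45.CY.Fam
import Pool.Agent.V7H45.CY.Fin
import Pool.Agent.V7H30.CY.P8
import Pool.Agent.V7H30.CY.P12
import Pool.Agent.V7H88.CY.X
import Pool.Agent.V7H88.CY.T
import Pool.Agent.V7H83.CY.LN
import Pool.Agent.V7H94.CY.G
import Pool.Agent.V7H58.CY.D
import Pool.Agent.V7H34.CY.R
import Pool.Agent.V7H33.CY.I7
import Pool.Agent.V7H33.CY.TC
import Pool.Agent.V7H63.CY.L8
import Pool.Agent.V7H63.CY.L12
import Pool.Agent.V7H88.CY.BOX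
import Pool.Agent.V7H94.CY.EX8

/-! The curves with cyclic torsion groups of order 8 and 12. -/

set_option autoImplicit false

namespace Pool.Agent.V7H45.CY

open Finset Filter Pool.Agent.W262.RK Pool.Agent.W307.RT

/-- the box for `Z/8` -/
theorem box_8 : BOXC Mc8 Nc8 :=
  Pool.Agent.V7H88.CY.t_BOX 5 f5 Mc8 Nc8 Mc8_neg Nc8_neg f5_ne
    (avg5 Pool.Agent.V7H88.CY.t_X Pool.Agent.V7H94.CY.t_G Pool.Agent.V7H88.CY.t_T
      Pool.Agent.V7H58.CY.t_D Pool.Agent.V7H33.CY.t_C5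
      (Pool.Agent.V7H34.CY.t_R5 Pool.Agent.V7H83.CY.t_LN))

/-- the box for `Z/12` -/
theorem box_12 : BOXC Mc12 Nc12 :=
  Pool.Agent.V7H88.CY.t_BOX 7 f7 Mc12 Nc12 Mc12_neg Nc12_neg f7_ne
    (avg7 Pool.Agent.V7H88.CY.t_X Pool.Agent.V7H94.CY.t_G Pool.Agent.V7H88.CY.t_T
      Pool.Agent.V7H58.CY.t_D Pool.Agent.V7H33.CY.t_C12
      (Pool.Agent.V7H34.CY.t_R12 Pool.Agent.V7H83.CY.t_LN))

open Classical in
/-- the curves with a point of order eight and without a subgroup `Z/2 x Z/8` -/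
noncomputable def Q8 (H : ℕ) : Finset (ℤ × ℤ) :=
  (CvC 8 H).filter (fun c : ℤ × ℤ => ¬ HasT 8 (Sh c.1 c.2))

lemma Q8_sub (H : ℕ) : Q8 H ⊆ CvC 8 H := by
  classical
  unfold Q8
  exact filter_subset _ _

lemma low_Q8 : LOWQ 24 Q8 := Pool.Agent.V7H94.CY.t_EX8 Pool.Agent.V7H63.CY.t_L8

lemma low_12 : LOWQ 48 (CvC 12) := Pool.Agent.V7H63.CY.t_L12

/-- **the average for `Z/8`** -/
theorem main_8 : ∃ C : ℝ, ∀ H : ℕ, ∑ c ∈ Q8 H, RS c ≤ C * ((Q8 H).card : ℝ) :=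
  final_Q (by norm_num) Pool.Agent.V7H30.CY.t_P8 Q8
    Q8_sub low_Q8 box_8

/-- **the average for `Z/12`** -/
theorem main_12 : ∃ C : ℝ, ∀ H : ℕ, ∑ c ∈ CvC 12 H, RS c ≤ C * ((CvC 12 H).card : ℝ) :=
  final_Q (by norm_num) Pool.Agent.V7H30.CY.t_P12 (CvC 12)
    (fun _ => Subset.refl _) low_12 box_12

end Pool.Agent.V7H45.CY
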