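import Pool.Agent.W307.RT.Stm
import Pool.Agent.V7H45.G8.Gr

/-!
# Project CYC: cyclic torsion groups of order 8 and 12, statements of the parts

An elliptic curve with a point of order 8 or 12 is 2-isogenous to `y² = x (x + M) (x + N)` with
the forms `M`, `N` below.
-/

set_option autoImplicit false

namespace Pool.Agent.V7H45.CY

open Finset Pool.Agent.W262.RK Pool.Agent.W307.RT Pool.Agent.V7H45.G8

/-- the curve `y² = x (x² + α x + β)` -/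
def W2 (α β : ℚ) : WeierstrassCurve ℚ := ⟨0, α, 0, β, 0⟩

/-- JOB I: the 2-isogeny does not lower the rank -/
def S_ISO2 : Prop := ∀ α β : ℚ, β ≠ 0 → α ^ 2 - 4 * β ≠ 0 →
  AddGroup.FG (W2 (-2 * α) (α ^ 2 - 4 * β)).toAffine.Point →
  Module.finrank ℤ (W2 α β).toAffine.Point ≤
    Module.finrank ℤ (W2 (-2 * α) (α ^ 2 - 4 * β)).toAffine.Point

/-- there is a point of order `m` -/
def HasC (m : ℕ) (W : WeierstrassCurve ℚ) : Prop := ∃ P : W.toAffine.Point, addOrderOf P = m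

open Classical in
/-- the elliptic curves `y² = x³ + A x + B` of height at most `H`, minimal, with a point of order
`m` -/
noncomputable def CvC (m H : ℕ) : Finset (ℤ × ℤ) :=
  ((Icc (-(H : ℤ)) H) ×ˢ (Icc (-(H : ℤ)) H)).filter (fun c : ℤ × ℤ =>
    4 * c.1 ^ 3 + 27 * c.2 ^ 2 ≠ 0 ∧ 4 * |c.1| ^ 3 ≤ H ∧ 27 * c.2 ^ 2 ≤ H ∧
    (∀ p : ℕ, p.Prime → ¬ ((p : ℤ) ^ 4 ∣ c.1 ∧ (p : ℤ) ^ 6 ∣ c.2)) ∧ HasC m (Sh c.1 c.2))

/-- parametrisation of `CvC m` by coprime pairs; the rank is at most that of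
`y² = x (x + M) (x + N)` -/
def PARC (m k : ℕ) (M N : ℤ → ℤ → ℤ) : Prop :=
  ∃ (C : ℕ) (F : ℤ × ℤ → ℤ × ℤ), ∀ H : ℕ, Set.InjOn F (CvC m H : Set (ℤ × ℤ)) ∧
    ∀ c ∈ CvC m H, IsCoprime (F c).1 (F c).2 ∧ M (F c).1 (F c).2 ≠ 0 ∧ N (F c).1 (F c).2 ≠ 0 ∧
      M (F c).1 (F c).2 ≠ N (F c).1 (F c).2 ∧
      (F c).1.natAbs ^ k ≤ C * H ∧ (F c).2.natAbs ^ k ≤ C * H ∧
      Module.finrank ℤ (Sh c.1 c.2).toAffine.Point ≤
        Module.finrank ℤ (EAB (-(M (F c).1 (F c).2)) (-(N (F c).1 (F c).2))).toAffine.Point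

/-- there are many such curves -/
def LOWC (m k : ℕ) : Prop :=
  ∃ (c : ℝ) (C T0 : ℕ), 0 < c ∧ ∀ T H : ℕ, T0 ≤ T → C * T ^ k ≤ H → c * T ^ 2 ≤ ((CvC m H).card : ℝ)

/-- the forms for `Z/8` -/
def Mc8 (a _b : ℤ) : ℤ := a ^ 4
/-- the forms for `Z/8` -/
def Nc8 (a b : ℤ) : ℤ := (b ^ 2 - a ^ 2) ^ 2
/-- the forms for `Z/12` -/
def Mc12 (a b : ℤ) : ℤ := 16 * a ^ 6 * b ^ 2
/-- the forms for `Z/12` -/
def Nc12 (a b : ℤ) : ℤ := (b ^ 2 - a ^ 2) ^ 3 * (b ^ 2 + 3 * a ^ 2)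

/-- JOB P8 (may use `S_ISO2`) -/
def S_P8 : Prop := PARC 8 24 Mc8 Nc8
/-- JOB P12 (may use `S_ISO2`) -/
def S_P12 : Prop := PARC 12 48 Mc12 Nc12
/-- JOB L8 -/
def S_L8 : Prop := LOWC 8 24
/-- JOB L12 -/
def S_L12 : Prop := LOWC 12 48

/-- JOB TC: a point of order `m` and an injective homomorphism -/
def S_TC : Prop := ∀ (m : ℕ) (W : WeierstrassCurve ℚ), 1 ≤ m →
  (HasC m W ↔ ∃ f : ZMod m →+ W.toAffine.Point, Function.Injective f)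

/-- the forms of `Z/8` -/
def f5 (a b : ℤ) : Fin 5 → ℤ := ![a, b - a, b + a, b, 2 * a ^ 2 - b ^ 2]
/-- the classes -/
def c5 : Fin 5 → Fin 4 := ![0, 1, 1, 2, 2]
/-- the multiplicities -/
def m5 : Fin 5 → ℕ := ![4, 2, 2, 2, 1]
/-- the discriminants -/
def D5 : Fin 5 → ℤ := ![0, 0, 0, 0, 2]
/-- the constants -/
def κ5 : Fin 5 → ℤ := ![1, 1, 1, -1, -1]

/-- the forms of `Z/12` -/
def f7 (a b : ℤ) : Fin 7 → ℤ :=
  ![a, b, b - a, b + a, b ^ 2 + 3 * a ^ 2, 3 * a ^ 2 - b ^ 2, a ^ 2 + b ^ 2]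
/-- the classes -/
def c7 : Fin 7 → Fin 4 := ![0, 0, 1, 1, 1, 2, 2]
/-- the multiplicities -/
def m7 : Fin 7 → ℕ := ![6, 2, 3, 3, 1, 1, 3]
/-- the discriminants -/
def D7 : Fin 7 → ℤ := ![0, 0, 0, 0, -3, 3, -1]
/-- the constants -/
def κ7 : Fin 7 → ℤ := ![1, -3, 1, 1, 1, -1, -1]

/-- the counting theorem for the family `f` -/
def CNTF {n : ℕ} (f : ℤ → ℤ → Fin n → ℤ) (D : Fin n → ℤ) : Prop :=
  ∀ e : ℤ, (e = 1 ∨ e = -1) → ∃ c z0 : ℕ, ∀ z, z0 ≤ z →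
  ∃ (C : ℝ) (K y0 : ℕ), 0 ≤ C ∧ 1 ≤ K ∧ ∀ X y Y : ℕ, y0 ≤ y → z < y → y ^ K ≤ X →
  ∀ s ∈ Tup (Fin n) z y, ∀ v ∈ Tup (Fin n) z y, ∀ u ∈ Tup (Fin n) y Y,
    (∏ j, s j * v j * u j) ^ 8 ≤ X →
    (((Icc 1 X ×ˢ Icc 1 X).filter (fun t : ℕ × ℕ => t.1.Coprime t.2 ∧
      S1 z y (f (t.1 : ℤ) (e * (t.2 : ℤ) + 2 * (t.1 : ℤ))) = s ∧
      S2 z y (f (t.1 : ℤ) (e * (t.2 : ℤ) + 2 * (t.1 : ℤ))) = v ∧
      ∀ j, (u j : ℤ) ∣ f (t.1 : ℤ) (e * (t.2 : ℤ) + 2 * (t.1 : ℤ)) j)).card : ℝ) ≤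
      C * X ^ 2 * (∏ j, gr (D j) 1 c (s j)) *
        (∏ j, 4 ^ (v j).primeFactors.card * (gw 1 c (v j) / v j)) *
        (∏ j, 2 ^ (u j).primeFactors.card * (1 / (u j : ℝ))) / (Real.log y) ^ n

/-- JOB C5 (as `cnt8` of `V7H54/C8`) -/
def S_C5 : Prop := CNTF f5 D5
/-- JOB C12 (as `cnt8` of `V7H54/C8`) -/
def S_C12 : Prop := CNTF f7 D7

/-- the product of the primes of `s` at which `δ` is a square -/
noncomputable def ps (δ : ℤ) (s : ℕ) : ℕ := ∏ p ∈ s.primeFactors.filter (fun p => Jr δ p = 1), p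

/-- the primes of the form `b0` at which `δ` is not a square are removed -/
noncomputable def pos {n : ℕ} (δ : ℤ) (b0 : Fin n) (s : Fin n → ℕ) : Fin n → ℕ :=
  fun j => if j = b0 then ps δ (s j) else s j

/-- JOB LN: the local lemma. At a prime where the difference of two roots has valuation two and
the reduction is not split all the valuations are even. -/
def S_LN : Prop := ∀ (p : ℕ) [Fact p.Prime] (A B x y : ℚ), p ≠ 2 → A ≠ 0 → B ≠ 0 → A ≠ B →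
  y ≠ 0 → y ^ 2 = x * (x - A) * (x - B) →
  ((padicValRat p A = 2 ∧ padicValRat p B = 0 ∧ ¬ IsSquare ((-B : ℚ) : ℚ_[p])) ∨
   (padicValRat p B = 2 ∧ padicValRat p A = 0 ∧ ¬ IsSquare ((-A : ℚ) : ℚ_[p])) ∨
   (padicValRat p (A - B) = 2 ∧ padicValRat p A = 0 ∧ ¬ IsSquare ((A : ℚ) : ℚ_[p]))) →
  Even (padicValRat p x) ∧ Even (padicValRat p (x - A)) ∧ Even (padicValRat p (x - B))

/-- JOB R5, R12: the rank bound (adapt `V7H45/G8/Rank8.lean`; `DESC4` with the local condition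
`v = false ∧ w = false` at the primes removed by `pos`, `S_LN`, and `NL m L = NL m' L` when the
primes of `m / m'` have that condition). `b0`, `δ` = `3, -1` for `Z/8` and `1, -3` for `Z/12`. -/
def RANKF {n : ℕ} (f : ℤ → ℤ → Fin n → ℤ) (cls : Fin n → Fin 4) (κ : Fin n → ℤ) (b0 : Fin n)
    (δ : ℤ) (M N : ℤ → ℤ → ℤ) : Prop :=
  ∃ (z0 E : ℕ), ∀ z y X k : ℕ, z0 ≤ z → ∀ a b : ℤ, IsCoprime a b → (∀ j, f a b j ≠ 0) →
    (∀ j, (f a b j).natAbs ≤ X ^ 3) → 1 ≤ y → X < (y + 1) ^ k →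
    2 ^ Module.finrank ℤ (EAB (-(M a b)) (-(N a b))).toAffine.Point ≤
      4 ^ (z + 2) * E ^ k * 4 ^ (∑ j, (S2 z y (f a b) j).primeFactors.card) *
        NL (∏ j, pos δ b0 (S1 z y (f a b)) j)
          (LLs cls (fun j _ => κ j) (pos δ b0 (S1 z y (f a b))) ∅)

/-- JOB R5 -/
def S_R5 : Prop := RANKF f5 c5 κ5 3 (-1) Mc8 Nc8
/-- JOB R12 -/
def S_R12 : Prop := RANKF f7 c7 κ7 1 (-3) Mc12 Nc12

/-- the explicit part of the local count -/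
noncomputable def TT {n : ℕ} (cls : Fin n → Fin 4) (s : Fin n → ℕ) : ℝ :=
  ∏ j, (if cls j = 1 then (2 : ℝ) else 1 / 2) ^ (s j).primeFactors.card

/-- JOB G: the lower bound of the local count (pigeonhole on `d ∣ ∏_{cls j = 1} s j`, pairs
`(d, 1)`) -/
def S_G : Prop := ∀ (n : ℕ) (cls : Fin n → Fin 4) (κ : Fin n → ℤ) (z y : ℕ), 2 ≤ z →
  (∀ j, cls j ≠ 3) → (∀ j, cls j = 1 → κ j = 1) → ∀ s ∈ Tup (Fin n) z y,
    TT cls s ≤ (NL (∏ j, s j) (LLs cls (fun j _ => κ j) s ∅) : ℝ)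

/-- JOB D: decoupling of the primes removed by `pos`. -/
def S_D : Prop := ∀ (n : ℕ) (D : Fin n → ℤ) (b0 : Fin n) (δ : ℤ) (c z : ℕ), (δ = -1 ∨ δ = -3) →
  D b0 = 0 → 2 * c + 4 ≤ z → ∃ C : ℝ, 0 ≤ C ∧ ∀ (y : ℕ) (G : (Fin n → ℕ) → ℝ), z < y →
    (∀ s, 0 ≤ G s) →
    ∑ s ∈ Tup (Fin n) z y, G (pos δ b0 s) * ∏ j, gr (D j) 1 c (s j) ≤
      C * (Real.log y) ^ (1 / 2 : ℝ) * ∑ s ∈ Tup (Fin n) z y, G s *
        ∏ j, gr (if j = b0 then δ else D j) (if j = b0 then 1 / 2 else 1) c (s j)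

/-- JOB T: sums of multiplicative weights without characters -/
def S_T : Prop := ∀ (n : ℕ) (D : Fin n → ℤ) (w : Fin n → ℝ) (c z : ℕ),
  (∀ j, D j = 0 ∨ D j = 2 ∨ D j = -1 ∨ D j = 3 ∨ D j = -3) → (∀ j, 0 ≤ w j) → 2 * c + 4 ≤ z →
  ∃ C : ℝ, ∀ y, z < y → ∑ s ∈ Tup (Fin n) z y, ∏ j, gr (D j) (w j) c (s j) ≤
    C * (Real.log y) ^ (∑ j, w j)

/-- JOB X: the part of the local count beyond the explicit part, as a sum over the tuples not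
supported on the explicit indices (adapt `V7H45/G8/Exp.lean`: `expg`, `sum_Tup`) -/
def S_X : Prop := ∀ (n : ℕ) (cls : Fin n → Fin 4) (κ : Fin n → ℤ) (g : Fin n → ℕ → ℝ) (z y : ℕ),
  (∀ j, cls j ≠ 3) → (∀ j, κ j ≠ 0) → (∀ j, (κ j).natAbs ≤ z) → (∀ j, cls j = 1 → κ j = 1) →
  ∑ s ∈ Tup (Fin n) z y, (NB cls (fun j _ => κ j) s - TT cls s) *
      ∏ j, ∏ p ∈ (s j).primeFactors, g j p =
    ∑ d ∈ (Tup (I4 cls) z y).filter (fun d => ∃ i : I4 cls,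
        ¬ (cls i.1.1 = 1 ∨ i.1.2 = ((false, false), (false, false))) ∧ d i ≠ 1),
      (∏ i, ∏ p ∈ (d i).primeFactors, w4 cls i * g i.1.1 p) *
        Pool.Agent.W262.RK.Sym (L4 cls) (κ4 cls (fun j _ => κ j)) d

end Pool.Agent.V7H45.CY
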