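import Pool.Agent.V7H45.CY.Spec
import Pool.Agent.W307.RT.Fam

/-! Project CYC: statements of the last steps. -/

set_option autoImplicit false

namespace Pool.Agent.V7H45.CY

open Finset Pool.Agent.W262.RK Pool.Agent.W307.RT Pool.Agent.V7H45.G8

/-- `2 ^ (rank / 8)` for `y² = x (x + M) (x + N)` -/
noncomputable def R8 (M N : ℤ) : ℝ :=
  (2 : ℝ) ^ ((Module.finrank ℤ (EAB (-M) (-N)).toAffine.Point : ℝ) / 8)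

/-- the average over the coprime pairs -/
def AVGC {n : ℕ} (f : ℤ → ℤ → Fin n → ℤ) (M N : ℤ → ℤ → ℤ) : Prop :=
  ∀ e : ℤ, (e = 1 ∨ e = -1) → ∃ C : ℝ, ∀ X : ℕ, 1 ≤ X →
    ∑ t ∈ (Icc 1 X ×ˢ Icc 1 X).filter (fun t : ℕ × ℕ => t.1.Coprime t.2 ∧
      ∀ j, f (t.1 : ℤ) (e * (t.2 : ℤ) + 2 * (t.1 : ℤ)) j ≠ 0),
    R8 (M (t.1 : ℤ) (e * (t.2 : ℤ) + 2 * (t.1 : ℤ)))
      (N (t.1 : ℤ) (e * (t.2 : ℤ) + 2 * (t.1 : ℤ))) ≤ C * (X : ℝ) ^ 2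

/-- the sum over a box -/
def BOXC (M N : ℤ → ℤ → ℤ) : Prop :=
  ∃ C : ℝ, 0 ≤ C ∧ ∀ T : ℕ, 1 ≤ T → ∑ t ∈ (Box T).filter (fun t : ℤ × ℤ =>
      IsCoprime t.1 t.2 ∧ M t.1 t.2 ≠ 0 ∧ N t.1 t.2 ≠ 0 ∧ M t.1 t.2 ≠ N t.1 t.2),
      R8 (M t.1 t.2) (N t.1 t.2) ≤ C * (T : ℝ) ^ 2

/-- JOB BOX (adapt `box8` of `V7H45/G8/Main8.lean`) -/
def S_BOX : Prop := ∀ (n : ℕ) (f : ℤ → ℤ → Fin n → ℤ) (M N : ℤ → ℤ → ℤ),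
  (∀ a b, M (-a) (-b) = M a b) → (∀ a b, N (-a) (-b) = N a b) →
  (∀ a b, M a b ≠ 0 → N a b ≠ 0 → M a b ≠ N a b → ∀ j, f a b j ≠ 0) →
  AVGC f M N → BOXC M N

/-- JOB FIN (adapt `final_of` of `W307/RT/Box.lean`) -/
def S_FIN : Prop := ∀ (m k : ℕ) (M N : ℤ → ℤ → ℤ), 1 ≤ k → PARC m k M N → LOWC m k → BOXC M N →
  ∃ C : ℝ, ∀ H : ℕ, ∑ c ∈ CvC m H,
    (2 : ℝ) ^ ((Module.finrank ℤ (Sh c.1 c.2).toAffine.Point : ℝ) / 8) ≤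
      C * ((CvC m H).card : ℝ)

end Pool.Agent.V7H45.CY
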