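import Pool.Agent.V7H45.CY.Spec
import Pool.Agent.V7H45.CY.AT2
import Pool.Agent.V7H45.G8.Exp
import Pool.Agent.W307.RT.NB4

/-! The sum of the local count beyond its explicit part. -/

set_option autoImplicit false

namespace Pool.Agent.V7H45.CY

open Finset Pool.Agent.W262.RK Pool.Agent.W307.RT Pool.Agent.V7H45.G8

/-- class, is it chosen, has it a symbol? -/
abbrev Y4 : Type := Fin 4 × Bool × Bool

/-- the symbols -/
def LY (x y : Y4) : Bool := decide (x.1 ≠ y.1) && x.2.1 && y.2.2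

lemma LY_aux : ∀ k x y : Y4, LY k x = LY x k → LY k y = LY y k → LY x y = LY y x →
    ¬ (x.2 = (false, false) ∨ x.2 = k.2) → k.2 ≠ (false, false) →
    (y.2 = (false, false) ∨ y.1 = k.1) := by
  decide +kernel

lemma LY_P : ∀ x y : Y4, (x.1 = 1 ∨ x.2 = (false, false)) → (y.1 = 1 ∨ y.2 = (false, false)) →
    LY x y = false := by
  decide +kernel

variable {n : ℕ}

/-- the type -/
def ty (cls : Fin n → Fin 4) (i : I4 cls) : Fin n × Bool × Bool :=
  (i.1.1, decide (i.1.2.1 ≠ (false, false)), decide (i.1.2.2 ≠ (false, false)))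

/-- the type with the class -/
def tc (cls : Fin n → Fin 4) (x : Fin n × Bool × Bool) : Y4 := (cls x.1, x.2)

lemma L_ty {cls : Fin n → Fin 4} (hcls : ∀ j, cls j ≠ 3) (i i' : I4 cls) :
    L4 cls i i' = LY (tc cls (ty cls i)) (tc cls (ty cls i')) :=
  L_ty_aux _ _ (hcls _) (hcls _) _ _ _ _ i.2 i'.2

lemma ty_inj {cls : Fin n → Fin 4} (hcls : ∀ j, cls j ≠ 3) : Function.Injective (ty cls) := by
  rintro ⟨⟨j, v, x⟩, h⟩ ⟨⟨j', v', x'⟩, h'⟩ hh
  unfold ty at hh
  simp only [Prod.mk.injEq] at hh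
  obtain ⟨h1, h2, h3⟩ := hh
  subst h1
  obtain ⟨h4, h5⟩ := ty_inj_aux (cls j) v x v' x' (by
    have e1 : Al (cls j) v x = true := h
    have e2 : Al (cls j) v' x' = true := h'
    rw [e1, e2, h2, h3]
    simp [hcls j])
  subst h4 h5
  rfl

/-- the explicit indices -/
def PE (cls : Fin n → Fin 4) : Finset (I4 cls) :=
  univ.filter (fun i => cls i.1.1 = 1 ∨ i.1.2 = ((false, false), (false, false)))

lemma mem_PE {cls : Fin n → Fin 4} {i : I4 cls} :
    i ∈ PE cls ↔ cls (ty cls i).1 = 1 ∨ (ty cls i).2 = (false, false) := by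
  unfold PE ty
  rw [mem_filter]
  simp only [mem_univ, true_and, Prod.ext_iff, decide_eq_false_iff_not, not_not]

/-- the weights, in units of a quarter -/
def wq (b0 : Fin n) (x : Fin n × Bool × Bool) : ℕ := if x.1 = b0 then 1 else 2

/-- the combinatorial conditions -/
structure CMB (cls : Fin n → Fin 4) (b0 : Fin n) (K4 : ℕ) : Prop where
  A : ∀ k : Fin n × Bool × Bool, cls k.1 ≠ 1 → k.2 ≠ (false, false) →
    ∑ x ∈ univ.filter (fun x : Fin n × Bool × Bool => x.2 = (false, false) ∨ x.2 = k.2),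
      wq b0 x ≤ K4
  B : ∀ k : Fin n × Bool × Bool, cls k.1 ≠ 1 → k.2 ≠ (false, false) →
    ∑ x ∈ univ.filter (fun x : Fin n × Bool × Bool => x.2 = (false, false) ∨ cls x.1 = cls k.1),
      wq b0 x ≤ K4
  C : ∀ k : Fin n × Bool × Bool, cls k.1 ≠ 1 → k.2 ≠ (false, false) →
    ∑ x ∈ univ.filter (fun x : Fin n × Bool × Bool => (cls x.1 = 1 ∨ x.2 = (false, false)) ∧
      LY (tc cls x) (tc cls k) = LY (tc cls k) (tc cls x)), wq b0 x < K4

lemma cmb5 : CMB c5 3 18 := by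
  refine ⟨?_, ?_, ?_⟩
  · decide +kernel
  · decide +kernel
  · decide +kernel

lemma cmb7 : CMB c7 1 26 := by
  refine ⟨?_, ?_, ?_⟩
  · decide +kernel
  · decide +kernel
  · decide +kernel

/-- the weights of the forms -/
noncomputable def wf (b0 j : Fin n) : ℝ := if j = b0 then 1 / 2 else 1

/-- the discriminants of the forms -/
def Df (D : Fin n → ℤ) (b0 : Fin n) (δ : ℤ) (j : Fin n) : ℤ := if j = b0 then δ else D j

lemma w_eq {cls : Fin n → Fin 4} (hcls : ∀ j, cls j ≠ 3) (b0 : Fin n) (i : I4 cls) :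
    w4 cls i * wf b0 i.1.1 = (wq b0 (ty cls i) : ℝ) / 4 := by
  unfold w4 wf wq
  rw [if_neg (hcls _)]
  have : (ty cls i).1 = i.1.1 := rfl
  rw [this]
  split_ifs <;> norm_num

lemma sum_le_of {cls : Fin n → Fin 4} (hcls : ∀ j, cls j ≠ 3) (b0 : Fin n) (U : Finset (I4 cls))
    (V : Finset (Fin n × Bool × Bool)) (h : ∀ i ∈ U, ty cls i ∈ V) :
    ∑ i ∈ U, w4 cls i * wf b0 i.1.1 ≤ ((∑ x ∈ V, wq b0 x : ℕ) : ℝ) / 4 := by
  have h1 : ∑ i ∈ U, wq b0 (ty cls i) ≤ ∑ x ∈ V, wq b0 x := by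
    rw [← sum_image (f := wq b0) (g := ty cls) (fun x _ y _ hxy => ty_inj hcls hxy)]
    apply sum_le_sum_of_subset
    intro x hx
    obtain ⟨i, hi, rfl⟩ := mem_image.1 hx
    exact h i hi
  have h2 : ∑ i ∈ U, w4 cls i * wf b0 i.1.1 = ((∑ i ∈ U, wq b0 (ty cls i) : ℕ) : ℝ) / 4 := by
    push_cast
    rw [sum_div]
    exact sum_congr rfl fun i _ => w_eq hcls b0 i
  rw [h2]
  have : ((∑ i ∈ U, wq b0 (ty cls i) : ℕ) : ℝ) ≤ ((∑ x ∈ V, wq b0 x : ℕ) : ℝ) := by
    exact_mod_cast h1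
  linarith

/-- **the sum of the local count beyond its explicit part** -/
theorem sumR (hX : S_X) {cls : Fin n → Fin 4} {D κ : Fin n → ℤ} {b0 : Fin n} {δ : ℤ} {K4 : ℕ}
    (hcls : ∀ j, cls j ≠ 3) (hκ : ∀ j, κ j ≠ 0) (hκ1 : ∀ j, cls j = 1 → κ j = 1)
    (hD : ∀ j, Gdc (Df D b0 δ j)) (hC : CMB cls b0 K4) (c : ℕ) :
    ∃ z0 : ℕ, ∀ z, z0 ≤ z → ∃ C : ℝ, ∀ y, z < y →
      ∑ s ∈ Tup (Fin n) z y, (NB cls (fun j _ => κ j) s - TT cls s) *
        ∏ j, gr (Df D b0 δ j) (wf b0 j) c (s j) ≤ C * (Real.log y) ^ ((K4 : ℝ) / 4) := by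
  classical
  obtain ⟨z0, hz0⟩ := at2 (I4 cls) (fun i => Df D b0 δ i.1.1) (fun i => w4 cls i * wf b0 i.1.1)
    (L4 cls) (κ4 cls (fun j _ => κ j)) c ((K4 : ℝ) / 4) (PE cls) (fun i => hD _)
    (fun i => by
      rw [w_eq hcls]
      unfold wq
      split_ifs <;> norm_num)
    (L4_self cls) (κ4_ne cls _ fun j _ => hκ j) (by positivity)
    (fun i hi j hj => by
      rw [mem_PE] at hi hj
      rw [L_ty hcls]
      exact LY_P _ _ hi hj)
    (fun U hU hk => by
      obtain ⟨k, hk, hkP⟩ := hk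
      rw [mem_PE, not_or] at hkP
      by_cases h : ∀ i ∈ U, (ty cls i).2 = (false, false) ∨ (ty cls i).2 = (ty cls k).2
      · refine (sum_le_of hcls b0 U (univ.filter (fun x : Fin n × Bool × Bool =>
          x.2 = (false, false) ∨ x.2 = (ty cls k).2))
          (fun i hi => mem_filter.2 ⟨mem_univ _, h i hi⟩)).trans ?_
        have := hC.A _ hkP.1 hkP.2
        have h2 : ((∑ x ∈ univ.filter (fun x : Fin n × Bool × Bool =>
          x.2 = (false, false) ∨ x.2 = (ty cls k).2), wq b0 x : ℕ) : ℝ) ≤ K4 := by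
          exact_mod_cast this
        linarith
      · push Not at h
        obtain ⟨x, hx, hx1, hx2⟩ := h
        refine (sum_le_of hcls b0 U (univ.filter (fun x : Fin n × Bool × Bool =>
          x.2 = (false, false) ∨ cls x.1 = cls (ty cls k).1)) (fun i hi => ?_)).trans ?_
        · refine mem_filter.2 ⟨mem_univ _, ?_⟩
          have := LY_aux (tc cls (ty cls k)) (tc cls (ty cls x)) (tc cls (ty cls i))
            (by rw [← L_ty hcls, ← L_ty hcls]; exact hU k hk x hx)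
            (by rw [← L_ty hcls, ← L_ty hcls]; exact hU k hk i hi)
            (by rw [← L_ty hcls, ← L_ty hcls]; exact hU x hx i hi)
            (by rw [not_or]; exact ⟨hx1, hx2⟩) hkP.2
          exact this
        · have := hC.B _ hkP.1 hkP.2
          have h2 : ((∑ x ∈ univ.filter (fun x : Fin n × Bool × Bool =>
            x.2 = (false, false) ∨ cls x.1 = cls (ty cls k).1), wq b0 x : ℕ) : ℝ) ≤ K4 := by
            exact_mod_cast this
          linarith)
    (fun b hb => by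
      rw [mem_PE, not_or] at hb
      refine lt_of_le_of_lt (sum_le_of hcls b0 _ (univ.filter (fun x : Fin n × Bool × Bool =>
        (cls x.1 = 1 ∨ x.2 = (false, false)) ∧ LY (tc cls x) (tc cls (ty cls b)) =
          LY (tc cls (ty cls b)) (tc cls x))) (fun i hi => ?_)) ?_
      · rw [mem_filter, mem_PE, L_ty hcls, L_ty hcls] at hi
        exact mem_filter.2 ⟨mem_univ _, hi⟩
      · have := hC.C _ hb.1 hb.2
        have h2 : ((∑ x ∈ univ.filter (fun x : Fin n × Bool × Bool =>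
          (cls x.1 = 1 ∨ x.2 = (false, false)) ∧ LY (tc cls x) (tc cls (ty cls b)) =
          LY (tc cls (ty cls b)) (tc cls x)), wq b0 x : ℕ) : ℝ) < K4 := by
          exact_mod_cast this
        linarith)
  refine ⟨z0 + ∑ j, (κ j).natAbs, fun z hz => ?_⟩
  obtain ⟨C, hC⟩ := hz0 z (by omega)
  refine ⟨C, fun y hy => ?_⟩
  have h1 : ∀ (j : Fin n) (d : ℕ), gr (Df D b0 δ j) (wf b0 j) c d =
      ∏ p ∈ d.primeFactors, wf b0 j * (1 + Jr (Df D b0 δ j) p) / ((p : ℝ) - c) := fun j d => rfl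
  simp only [h1]
  rw [hX n cls κ (fun j p => wf b0 j * (1 + Jr (Df D b0 δ j) p) / ((p : ℝ) - c)) z y hcls hκ
    (fun j => by
      have := single_le_sum (f := fun i => (κ i).natAbs) (fun _ _ => Nat.zero_le _) (mem_univ j)
      omega) hκ1]
  refine le_trans (le_of_eq ?_) (le_trans (le_abs_self _) (hC y hy))
  apply sum_congr
  · apply filter_congr
    intro d _
    constructor
    · rintro ⟨i, h1, h2⟩
      exact ⟨i, fun h => h1 (mem_filter.1 h).2, h2⟩
    · rintro ⟨i, h1, h2⟩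
      exact ⟨i, fun h => h1 (mem_filter.2 ⟨mem_univ _, h⟩), h2⟩
  · intro d _
    congr 1
    apply prod_congr rfl
    intro i _
    unfold gr
    apply prod_congr rfl
    intro p _
    ring

end Pool.Agent.V7H45.CY
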